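import Pool.Agent.Helper13.JC.LC

/-!
# MP_924f75: coverings and a common class, centre `0`
-/

set_option autoImplicit false

namespace Pool.Agent.Helper13.JC

open Finset Pool.Agent.Helper60.GP

/-- the primes `p ≤ x`, `p > u`, with `a p` not divisible by `p` -/
noncomputable def E1 (x : ℕ) (u : ℝ) (a : ℕ → ℤ) : Finset ℕ := by
  classical
  exact (Icc 1 x).filter (fun p : ℕ => p.Prime ∧ u < (p : ℝ) ∧ ¬ (p : ℤ) ∣ a p)

/-- the primes `s ≤ x`, `t < s ≤ u`, with `a s` not divisible by `s` -/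
noncomputable def E0 (x : ℕ) (t u : ℝ) (a : ℕ → ℤ) : Finset ℕ := by
  classical
  exact (Icc 1 x).filter (fun s : ℕ => s.Prime ∧ t < (s : ℝ) ∧ (s : ℝ) ≤ u ∧ ¬ (s : ℤ) ∣ a s)

theorem mem_E1 {x : ℕ} {u : ℝ} {a : ℕ → ℤ} {p : ℕ} :
    p ∈ E1 x u a ↔ p ≤ x ∧ p.Prime ∧ u < (p : ℝ) ∧ ¬ (p : ℤ) ∣ a p := by
  unfold E1
  simp only [Finset.mem_filter, Finset.mem_Icc]
  exact ⟨fun h => ⟨h.1.2, h.2⟩, fun h => ⟨⟨h.2.1.one_lt.le, h.1⟩, h.2⟩⟩

theorem mem_E0 {x : ℕ} {t u : ℝ} {a : ℕ → ℤ} {s : ℕ} :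
    s ∈ E0 x t u a ↔ s ≤ x ∧ s.Prime ∧ t < (s : ℝ) ∧ (s : ℝ) ≤ u ∧ ¬ (s : ℤ) ∣ a s := by
  unfold E0
  simp only [Finset.mem_filter, Finset.mem_Icc]
  exact ⟨fun h => ⟨h.1.2, h.2⟩, fun h => ⟨⟨h.2.1.one_lt.le, h.1⟩, h.2⟩⟩

/-- the covering property -/
def Cov (x y : ℕ) (a : ℕ → ℤ) : Prop :=
  ∀ n : ℕ, 1 ≤ n → n ≤ y → ∃ p : ℕ, p.Prime ∧ p ≤ x ∧ (n : ℤ) ≡ a p [ZMOD (p : ℤ)]

/-- reduction to primes: a multiplier `m ∈ {1, 2}` and classes `c` -/
theorem reduce (a : ℕ → ℤ) : ∃ (m : ℕ) (c : ℕ → ℤ), (m = 1 ∨ m = 2) ∧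
    (∀ q : ℕ, q.Prime → 3 ≤ q → ¬ (((m * q : ℕ) : ℤ) ≡ a 2 [ZMOD ((2 : ℕ) : ℤ)])) ∧
    (∀ s : ℕ, s.Prime → 3 ≤ s → (((s : ℤ) ∣ c s ↔ (s : ℤ) ∣ a s) ∧
      ∀ q : ℕ, ((m * q : ℕ) : ℤ) ≡ a s [ZMOD (s : ℤ)] → (s : ℤ) ∣ (q : ℤ) - c s)) := by
  by_cases h2 : (2 : ℤ) ∣ a 2
  · refine ⟨1, a, Or.inl rfl, ?_, fun s _ _ => ⟨Iff.rfl, fun q hq => ?_⟩⟩
    · intro q hq h3 h
      rw [one_mul] at h
      have h4 : (2 : ℤ) ∣ a 2 - q := by
        have := Int.modEq_iff_dvd.1 h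
        exact_mod_cast this
      have h5 : (2 : ℤ) ∣ (q : ℤ) := (dvd_sub_right h2).1 h4
      have h6 : 2 ∣ q := by exact_mod_cast h5
      have h7 := (Nat.prime_dvd_prime_iff_eq Nat.prime_two hq).1 h6
      omega
    · rw [one_mul] at hq
      have h3 := Int.modEq_iff_dvd.1 hq.symm
      exact h3
  · refine ⟨2, fun s => a s * (((s + 1) / 2 : ℕ) : ℤ), Or.inr rfl, ?_, ?_⟩
    · intro q _ _ h
      have h4 : (2 : ℤ) ∣ a 2 - ((2 * q : ℕ) : ℤ) := by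
        have := Int.modEq_iff_dvd.1 h
        exact_mod_cast this
      have h5 : (2 : ℤ) ∣ ((2 * q : ℕ) : ℤ) := by
        push_cast
        exact dvd_mul_right _ _
      exact h2 ((dvd_sub_left h5).1 h4)
    · intro s hs h3
      have hodd : s % 2 = 1 := by
        rcases Nat.Prime.eq_two_or_odd hs with h | h
        · omega
        · exact h
      have hk : 2 * ((((s + 1) / 2 : ℕ) : ℤ)) = (s : ℤ) + 1 := by
        have : 2 * ((s + 1) / 2) = s + 1 := by omega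
        exact_mod_cast this
      have hsp : Prime (s : ℤ) := Nat.prime_iff_prime_int.1 hs
      have hs2 : ¬ (s : ℤ) ∣ 2 := by
        intro h
        have h4 : s ∣ 2 := by exact_mod_cast h
        have := Nat.le_of_dvd (by norm_num) h4
        omega
      refine ⟨⟨fun h => ?_, fun h => h.mul_right _⟩, fun q hq => ?_⟩
      · rcases hsp.dvd_or_dvd h with h4 | h4
        · exact h4
        · exfalso
          have h5 : (s : ℤ) ∣ 2 * ((((s + 1) / 2 : ℕ) : ℤ)) := h4.mul_left 2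
          rw [hk] at h5
          have h6 : (s : ℤ) ∣ 1 := (dvd_add_right (dvd_refl _)).1 h5
          exact hsp.not_isUnit (isUnit_of_dvd_one h6)
      · have h4 : (s : ℤ) ∣ ((2 * q : ℕ) : ℤ) - a s := by
          have := Int.modEq_iff_dvd.1 hq.symm
          exact this
        have h5 : (s : ℤ) ∣ 2 * ((q : ℤ) - a s * (((s + 1) / 2 : ℕ) : ℤ)) := by
          have e : 2 * ((q : ℤ) - a s * (((s + 1) / 2 : ℕ) : ℤ)) =
              (((2 * q : ℕ) : ℤ) - a s) - a s * s := by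
            generalize (((s + 1) / 2 : ℕ) : ℤ) = k at hk
            push_cast
            linear_combination (-(a s)) * hk
          rw [e]
          exact dvd_sub h4 (dvd_mul_left _ _)
        rcases hsp.dvd_or_dvd h5 with h6 | h6
        · exact absurd h6 hs2
        · exact h6

open Classical in
/-- survivors in one class -/
theorem one_class {B : ℕ} (hB : ∀ w : ℕ, 1 ≤ w → ∀ N p : ℕ, w ^ B ≤ N →
      (∀ s : ℕ, s.Prime → s ≤ w → ¬ s ∣ p) → ∀ (b : ℤ) (c : ℕ → ℤ) (Q : Finset ℕ),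
      (∀ s ∈ Q, ¬ (s : ℤ) ∣ c s) →
      (((range N).filter fun h : ℕ => ∀ s ∈ Sw w, ¬ ((s : ℤ) ∣ b + h * p ∨
        (s ∈ Q ∧ (s : ℤ) ∣ b + h * p - c s))).card : ℝ) ≤
        3 * N * ((∏ s ∈ Sw w, (1 - 1 / (s : ℝ))) *
          ∏ s ∈ (Sw w).filter (· ∈ Q), (1 - 1 / (s : ℝ))))
    (X w p : ℕ) (hw : 1 ≤ w) (hp : p.Prime) (hwp : w < p) (hpX : p ≤ X)
    (hN : w ^ B ≤ 2 * X / p + 1) (c : ℕ → ℤ) (Q : Finset ℕ) (hc : ∀ s ∈ Q, ¬ (s : ℤ) ∣ c s) :
    ((((Ioc X (2 * X)).filter (fun q : ℕ => q.Prime ∧ ∀ s ∈ Q, ¬ (s : ℤ) ∣ (q : ℤ) - c s)).filter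
      (fun q : ℕ => (p : ℤ) ∣ (q : ℤ) - c p)).card : ℝ) ≤
      9 * (X / p) * ((∏ s ∈ Sw w, (1 - 1 / (s : ℝ))) *
          ∏ s ∈ (Sw w).filter (· ∈ Q), (1 - 1 / (s : ℝ))) := by
  set N := 2 * X / p + 1 with hNd
  set b : ℤ := (c p) % (p : ℤ) with hb
  have hp0 : (0 : ℤ) < p := by exact_mod_cast hp.pos
  have hb0 : 0 ≤ b := Int.emod_nonneg _ hp0.ne'
  have hbp : b < p := Int.emod_lt_of_pos _ hp0
  have hbc : (p : ℤ) ∣ c p - b := by
    rw [hb]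
    exact Int.dvd_self_sub_emod
  set P0 := (∏ s ∈ Sw w, (1 - 1 / (s : ℝ))) * ∏ s ∈ (Sw w).filter (· ∈ Q), (1 - 1 / (s : ℝ))
    with hP0
  have h1 := hB w hw N p hN (fun s hs hsw hsp => by
    have := (Nat.prime_dvd_prime_iff_eq hs hp).1 hsp
    omega) b c Q hc
  have hSw : ∀ s ∈ Sw w, s.Prime ∧ s ≤ w := fun s hs => by
    unfold Sw at hs
    rw [Finset.mem_filter, Finset.mem_Icc] at hs
    exact ⟨hs.2, hs.1.2⟩
  have hcard : (((Ioc X (2 * X)).filter (fun q : ℕ => q.Prime ∧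
      ∀ s ∈ Q, ¬ (s : ℤ) ∣ (q : ℤ) - c s)).filter
      (fun q : ℕ => (p : ℤ) ∣ (q : ℤ) - c p)).card ≤
      ((range N).filter fun h : ℕ => ∀ s ∈ Sw w, ¬ ((s : ℤ) ∣ b + h * p ∨
        (s ∈ Q ∧ (s : ℤ) ∣ b + h * p - c s))).card := by
    have hdec : ∀ q : ℕ, (p : ℤ) ∣ (q : ℤ) - c p → (q : ℤ) = b + ((q / p : ℕ) : ℤ) * p := by
      intro q hq
      have h3 : (p : ℤ) ∣ (q : ℤ) - b := by
        have e : (q : ℤ) - b = ((q : ℤ) - c p) + (c p - b) := by ring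
        rw [e]
        exact dvd_add hq hbc
      have h4 : (q : ℤ) % p = b := by
        have h6 : b % (p : ℤ) = (q : ℤ) % p := Int.modEq_iff_dvd.2 h3
        rw [← h6]
        exact Int.emod_eq_of_lt hb0 hbp
      have h5 := Int.emod_add_mul_ediv (q : ℤ) p
      rw [h4] at h5
      push_cast
      linarith
    refine Finset.card_le_card_of_injOn (fun q => q / p) ?_ ?_
    · intro q hq
      simp only [Finset.coe_filter, Set.mem_ofPred_eq, Finset.mem_filter, Finset.mem_Ioc] at hq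
      obtain ⟨⟨⟨hq1, hq2⟩, hqp, hqQ⟩, hqc⟩ := hq
      simp only [Finset.coe_filter, Set.mem_ofPred_eq, Finset.mem_range]
      refine ⟨?_, ?_⟩
      · have := Nat.div_le_div_right (c := p) hq2
        omega
      · intro s hs h
        rw [← hdec q hqc] at h
        obtain ⟨hs1, hs2⟩ := hSw s hs
        rcases h with h | ⟨h, h'⟩
        · have h3 : s ∣ q := by exact_mod_cast h
          have h4 := (Nat.prime_dvd_prime_iff_eq hs1 hqp).1 h3
          omega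
        · exact hqQ s h h'
    · intro q hq q' hq' h
      simp only [Finset.coe_filter, Set.mem_ofPred_eq] at hq hq'
      have h3 := hdec q hq.2
      have h4 := hdec q' hq'.2
      dsimp only at h
      rw [h] at h3
      have h5 : (q : ℤ) = q' := by rw [h3, h4]
      exact_mod_cast h5
  have hP00 : 0 ≤ P0 := by
    have h3 : ∀ s ∈ Sw w, 0 ≤ 1 - 1 / (s : ℝ) := fun s hs => by
      have : (1 : ℝ) ≤ s := by exact_mod_cast (hSw s hs).1.one_lt.le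
      rw [sub_nonneg, div_le_one (by linarith)]
      exact this
    exact mul_nonneg (Finset.prod_nonneg h3)
      (Finset.prod_nonneg fun s hs => h3 s (Finset.mem_filter.1 hs).1)
  have hNR : (N : ℝ) ≤ 3 * (X / p) := by
    have hpR : (0 : ℝ) < p := by exact_mod_cast hp.pos
    have h3 : ((2 * X / p : ℕ) : ℝ) ≤ 2 * X / p := by
      have := Nat.cast_div_le (α := ℝ) (m := 2 * X) (n := p)
      push_cast at this
      exact this
    have h4 : (1 : ℝ) ≤ X / p := by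
      rw [le_div_iff₀ hpR, one_mul]
      exact_mod_cast hpX
    rw [hNd]
    push_cast
    have e : 2 * (X : ℝ) / p = 2 * (X / p) := by ring
    linarith
  have h2 : ((((Ioc X (2 * X)).filter (fun q : ℕ => q.Prime ∧
      ∀ s ∈ Q, ¬ (s : ℤ) ∣ (q : ℤ) - c s)).filter
      (fun q : ℕ => (p : ℤ) ∣ (q : ℤ) - c p)).card : ℝ) ≤ 3 * N * P0 :=
    (by exact_mod_cast hcard : _ ≤ _).trans h1
  refine h2.trans ?_
  have h3 := mul_le_mul_of_nonneg_right hNR hP00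
  linarith

end Pool.Agent.Helper13.JC
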