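import Pool.Agent.Helper13.JC.C0

/-!
# MP_924f75: the main inequality, centre `0`
-/

set_option autoImplicit false

namespace Pool.Agent.Helper13.JC

open Finset Pool.Agent.Helper60.GP

/-- the main inequality, centre `0` -/
theorem centre0 (hBVc : StBVc) (hPNT : StPNT) (hBump : StBump) :
    ∃ c δ x₀ : ℝ, 0 < c ∧ c ≤ 1 / 4 ∧ 0 < δ ∧ 2 ≤ x₀ ∧ ∀ x y : ℕ, x₀ ≤ x → 16 * x ≤ y →
      y ≤ x ^ 2 → ∀ a : ℕ → ℤ, Cov x y a →
      δ * (Real.log ((y : ℝ) / x) / Real.log x) *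
        Real.exp (-∑ s ∈ E0 x (((y : ℝ) / x) ^ c) ((x : ℝ) ^ c) a, 1 / (s : ℝ)) ≤
      ∑ p ∈ E1 x ((x : ℝ) ^ c) a, 1 / (p : ℝ) := by
  classical
  obtain ⟨B, hB⟩ := upper
  obtain ⟨c₀, κ, X₀, hc0, hκ, hκ4, hX0, hL⟩ := lower hBVc hPNT hBump
  obtain ⟨C₁, hC1, hSwb⟩ := prod_Sw
  set c : ℝ := min κ (1 / (2 * (B + 1))) with hcd
  have hcpos : 0 < c := lt_min hκ (by positivity)
  have hcκ : c ≤ κ := min_le_left _ _
  have hcB : c * B ≤ 1 / 2 := by
    have h1 : c ≤ 1 / (2 * (B + 1)) := min_le_right _ _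
    have h2 : (0 : ℝ) ≤ B := Nat.cast_nonneg B
    have h3 : c * B ≤ 1 / (2 * (B + 1)) * B := mul_le_mul_of_nonneg_right h1 h2
    refine h3.trans ?_
    rw [div_mul_eq_mul_div, one_mul, div_le_div_iff₀ (by positivity) (by norm_num)]
    linarith
  have hc4 : c ≤ 1 / 4 := hcκ.trans hκ4
  set δ : ℝ := c₀ * Real.exp (-6) * c / (18 * C₁) with hδ
  refine ⟨c, δ, max X₀ 3, hcpos, hc4, by positivity, hX0.trans (le_max_left _ _), ?_⟩
  intro x y hx hxy hyx a hcov
  have hxX0 : X₀ ≤ (x : ℝ) := (le_max_left _ _).trans hx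
  have hx3 : (3 : ℝ) ≤ x := (le_max_right _ _).trans hx
  have hx3' : 3 ≤ x := by exact_mod_cast hx3
  have hxpos : (0 : ℝ) < x := by linarith
  set X := y / 4 with hXd
  have hX1 : 4 * X ≤ y := by omega
  have hX2 : y < 4 * X + 4 := by omega
  have hxX : x ≤ X := by omega
  have hXpos : (0 : ℝ) < X := by exact_mod_cast (by omega : 0 < X)
  set Y : ℝ := (y : ℝ) / x with hYd
  have hY16 : 16 ≤ Y := by
    rw [hYd, le_div_iff₀ hxpos]
    exact_mod_cast hxy
  have hYx : Y ≤ x := by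
    rw [hYd, div_le_iff₀ hxpos]
    have : y ≤ x * x := by rw [← sq]; exact hyx
    exact_mod_cast this
  have hYc1 : 1 ≤ Y ^ c := Real.one_le_rpow (by linarith) hcpos.le
  have hYcx : Y ^ c ≤ (x : ℝ) ^ c := Real.rpow_le_rpow (by linarith) hYx hcpos.le
  have hxcx : (x : ℝ) ^ c ≤ x := by
    nth_rewrite 2 [← Real.rpow_one (x : ℝ)]
    exact Real.rpow_le_rpow_of_exponent_le (by linarith) (by linarith)
  set w : ℕ := ⌊Y ^ c⌋₊ with hwd
  have hw1 : 1 ≤ w := Nat.le_floor (by exact_mod_cast hYc1)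
  have hwY : (w : ℝ) ≤ Y ^ c := Nat.floor_le (by linarith)
  have hYw : Y ^ c < w + 1 := Nat.lt_floor_add_one _
  obtain ⟨m, cl, hm, hm2, hcl⟩ := reduce a
  set Q : Finset ℕ := (Icc 3 x).filter
    (fun s : ℕ => s.Prime ∧ (s : ℝ) ≤ (x : ℝ) ^ c ∧ ¬ (s : ℤ) ∣ a s) with hQd
  have hQm : ∀ s ∈ Q, s.Prime ∧ 3 ≤ s ∧ s ≤ x ∧ (s : ℝ) ≤ (x : ℝ) ^ c ∧ ¬ (s : ℤ) ∣ a s := by
    intro s hs
    rw [hQd, Finset.mem_filter, Finset.mem_Icc] at hs
    exact ⟨hs.2.1, hs.1.1, hs.1.2, hs.2.2⟩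
  have hxXR : (x : ℝ) ≤ X := by exact_mod_cast hxX
  have hQX : ∀ s ∈ Q, s.Prime ∧ 3 ≤ s ∧ (s : ℝ) ≤ (X : ℝ) ^ κ := by
    intro s hs
    obtain ⟨h1, h2, h3, h4, h5⟩ := hQm s hs
    refine ⟨h1, h2, h4.trans ?_⟩
    exact (Real.rpow_le_rpow hxpos.le hxXR hcpos.le).trans
      (Real.rpow_le_rpow_of_exponent_le (by linarith) hcκ)
  have hQc : ∀ s ∈ Q, ¬ (s : ℤ) ∣ cl s := by
    intro s hs h
    obtain ⟨h1, h2, h3, h4, h5⟩ := hQm s hs
    exact h5 (((hcl s h1 h2).1).1 h)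
  have hlow := hL X (hxX0.trans hxXR) Q cl hQX hQc
  set P := (Ioc X (2 * X)).filter
    (fun q : ℕ => q.Prime ∧ ∀ s ∈ Q, ¬ (s : ℤ) ∣ (q : ℤ) - cl s) with hPd
  set V := ∏ s ∈ Q, (1 - 1 / ((s : ℝ) - 1)) with hVd
  set P0 := (∏ s ∈ Sw w, (1 - 1 / (s : ℝ))) * ∏ s ∈ (Sw w).filter (· ∈ Q), (1 - 1 / (s : ℝ))
    with hP0
  set F := E1 x ((x : ℝ) ^ c) a with hFd
  -- the covering
  have hsub : P ⊆ F.biUnion (fun p => P.filter (fun q : ℕ => (p : ℤ) ∣ (q : ℤ) - cl p)) := by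
    intro q hq
    have hq' := hq
    rw [hPd, Finset.mem_filter, Finset.mem_Ioc] at hq'
    obtain ⟨⟨hq1, hq2⟩, hqp, hqQ⟩ := hq'
    have hn1 : 1 ≤ m * q := by
      rcases hm with h | h <;> rw [h] <;> omega
    have hny : m * q ≤ y := by
      rcases hm with h | h <;> rw [h] <;> omega
    obtain ⟨p, hp, hpx, hpc⟩ := hcov (m * q) hn1 hny
    have hp3 : 3 ≤ p := by
      by_contra hcon
      have : p = 2 := by
        have := hp.two_le
        omega
      subst this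
      exact hm2 q hqp (by omega) hpc
    obtain ⟨hiff, hred⟩ := hcl p hp hp3
    have hpq := hred q hpc
    have hpa : ¬ (p : ℤ) ∣ a p := by
      intro h
      have h1 : (p : ℤ) ∣ (q : ℤ) := by
        have h2 := hiff.2 h
        have h3 := dvd_add hpq h2
        simpa using h3
      have h2 : p ∣ q := by exact_mod_cast h1
      have h3 := (Nat.prime_dvd_prime_iff_eq hp hqp).1 h2
      omega
    have hpbig : (x : ℝ) ^ c < p := by
      by_contra hcon
      push Not at hcon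
      have h1 : p ∈ Q := by
        rw [hQd, Finset.mem_filter, Finset.mem_Icc]
        exact ⟨⟨hp3, hpx⟩, hp, hcon, hpa⟩
      exact hqQ p h1 hpq
    rw [Finset.mem_biUnion]
    exact ⟨p, mem_E1.2 ⟨hpx, hp, hpbig, hpa⟩, Finset.mem_filter.2 ⟨hq, hpq⟩⟩
  have hone : ∀ p ∈ F, ((P.filter (fun q : ℕ => (p : ℤ) ∣ (q : ℤ) - cl p)).card : ℝ) ≤
      9 * (X / p) * P0 := by
    intro p hpF
    obtain ⟨hpx, hp, hpbig, hpa⟩ := mem_E1.1 hpF
    have hwp : w < p := by
      have : (w : ℝ) < p := (hwY.trans hYcx).trans_lt hpbig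
      exact_mod_cast this
    have hpR : (0 : ℝ) < p := by exact_mod_cast hp.pos
    refine one_class hB X w p hw1 hp hwp (hpx.trans hxX) ?_ cl Q hQc
    have h1 : (w : ℝ) ^ B ≤ Y / 4 := by
      have h2 : (w : ℝ) ^ B ≤ (Y ^ c) ^ B := pow_le_pow_left₀ (Nat.cast_nonneg w) hwY B
      have h3 : (Y ^ c) ^ B ≤ Y ^ (1 / 2 : ℝ) := by
        rw [← Real.rpow_natCast, ← Real.rpow_mul (by linarith)]
        exact Real.rpow_le_rpow_of_exponent_le (by linarith) hcB
      rw [← Real.sqrt_eq_rpow] at h3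
      have h4 : √Y * √Y = Y := Real.mul_self_sqrt (by linarith)
      have h5 : 4 ≤ √Y := by
        rw [Real.le_sqrt (by norm_num) (by linarith)]
        linarith
      have h6 : √Y ≤ Y / 4 := by nlinarith
      linarith
    have h2 : Y / 4 ≤ 2 * X / p := by
      have h3 : Y / 4 ≤ 2 * X / x := by
        rw [hYd, div_div, div_le_div_iff₀ (by positivity) hxpos]
        have h4 : (y : ℝ) < 4 * X + 4 := by exact_mod_cast hX2
        have h5 : (1 : ℝ) ≤ X := by linarith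
        have h6 : (y : ℝ) ≤ 2 * X * 4 := by linarith
        have := mul_le_mul_of_nonneg_right h6 hxpos.le
        linarith
      refine h3.trans ?_
      have h4 : (p : ℝ) ≤ x := by exact_mod_cast hpx
      exact div_le_div_of_nonneg_left (by positivity) hpR h4
    have h3 : (2 * (X : ℝ) / p) < ((2 * X / p + 1 : ℕ) : ℝ) := by
      rw [div_lt_iff₀ hpR]
      have h4 : 2 * X < p * (2 * X / p + 1) := Nat.lt_mul_div_succ (2 * X) hp.pos
      have h5 : ((2 * X : ℕ) : ℝ) < ((p * (2 * X / p + 1) : ℕ) : ℝ) := by exact_mod_cast h4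
      rw [Nat.cast_mul, Nat.cast_mul p] at h5
      push_cast at h5 ⊢
      linarith
    have h4 : ((w ^ B : ℕ) : ℝ) ≤ ((2 * X / p + 1 : ℕ) : ℝ) := by
      push_cast at h3 ⊢
      linarith
    exact_mod_cast h4
  set S := ∑ p ∈ F, 1 / (p : ℝ) with hSd
  have hcount : (P.card : ℝ) ≤ 9 * X * P0 * S := by
    have h1 : P.card ≤ ∑ p ∈ F, (P.filter (fun q : ℕ => (p : ℤ) ∣ (q : ℤ) - cl p)).card :=
      (Finset.card_le_card hsub).trans Finset.card_biUnion_le
    have h2 : (P.card : ℝ) ≤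
        ∑ p ∈ F, ((P.filter (fun q : ℕ => (p : ℤ) ∣ (q : ℤ) - cl p)).card : ℝ) := by
      exact_mod_cast h1
    refine h2.trans ((Finset.sum_le_sum hone).trans (le_of_eq ?_))
    rw [hSd, Finset.mul_sum]
    refine Finset.sum_congr rfl fun p _ => ?_
    ring
  -- products
  set A := ∑ s ∈ (Sw w).filter (· ∈ Q), 1 / (s : ℝ) with hAd
  set e0 := ∑ s ∈ E0 x (Y ^ c) ((x : ℝ) ^ c) a, 1 / (s : ℝ) with he0
  have hSwm : ∀ s ∈ Sw w, 1 ≤ s := fun s hs => by
    unfold Sw at hs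
    rw [Finset.mem_filter, Finset.mem_Icc] at hs
    omega
  have hsumQ : ∑ s ∈ Q, 1 / (s : ℝ) ≤ A + 1 / 3 + e0 := by
    have h1 : Q ⊆ ((Sw w).filter (· ∈ Q) ∪ {3}) ∪ E0 x (Y ^ c) ((x : ℝ) ^ c) a := by
      intro s hs
      obtain ⟨h1, h2, h3, h4, h5⟩ := hQm s hs
      rw [Finset.mem_union, Finset.mem_union, Finset.mem_singleton]
      by_cases hsw : s ≤ w
      · left
        by_cases hs3 : s = 3
        · right
          exact hs3
        · left
          rw [Finset.mem_filter]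
          refine ⟨?_, hs⟩
          unfold Sw
          rw [Finset.mem_filter, Finset.mem_Icc]
          refine ⟨⟨?_, hsw⟩, h1⟩
          by_contra hcon
          have : s = 4 := by omega
          rw [this] at h1
          exact absurd h1 (by decide)
      · right
        refine mem_E0.2 ⟨h3, h1, ?_, h4, h5⟩
        have : w + 1 ≤ s := by omega
        have h6 : ((w : ℝ) + 1) ≤ s := by exact_mod_cast this
        linarith
    have hnn : ∀ s : ℕ, 0 ≤ 1 / (s : ℝ) := fun s => by positivity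
    have hun : ∀ U W : Finset ℕ, ∑ s ∈ U ∪ W, 1 / (s : ℝ) ≤
        ∑ s ∈ U, 1 / (s : ℝ) + ∑ s ∈ W, 1 / (s : ℝ) := by
      intro U W
      have h2 := Finset.sum_union_inter (s₁ := U) (s₂ := W) (f := fun s : ℕ => 1 / (s : ℝ))
      have h3 : 0 ≤ ∑ s ∈ U ∩ W, 1 / (s : ℝ) := Finset.sum_nonneg fun s _ => hnn s
      linarith
    have h2 := Finset.sum_le_sum_of_subset_of_nonneg h1
      (f := fun s : ℕ => 1 / (s : ℝ)) fun s _ _ => hnn s
    have h3 := hun ((Sw w).filter (· ∈ Q) ∪ {3}) (E0 x (Y ^ c) ((x : ℝ) ^ c) a)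
    have h4 := hun ((Sw w).filter (· ∈ Q)) {3}
    rw [Finset.sum_singleton] at h4
    push_cast at h4
    linarith
  have hVlow : Real.exp (-A - e0 - 6) ≤ V := by
    refine le_trans (Real.exp_le_exp.2 ?_) (prod_ge fun s hs => (hQm s hs).2.1)
    linarith
  have hlY : 0 < Real.log Y := Real.log_pos (by linarith)
  have hlx : 0 < Real.log (x : ℝ) := Real.log_pos (by linarith)
  have hP1 : ∏ s ∈ Sw w, (1 - 1 / (s : ℝ)) ≤ C₁ / (c * Real.log Y) := by
    refine (hSwb w hw1).trans ?_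
    refine div_le_div_of_nonneg_left hC1.le (by positivity) ?_
    rw [← Real.log_rpow (by linarith)]
    exact Real.log_le_log (by linarith) hYw.le
  have hP2 : ∏ s ∈ (Sw w).filter (· ∈ Q), (1 - 1 / (s : ℝ)) ≤ Real.exp (-A) :=
    prod_le fun s hs => hSwm s (Finset.mem_filter.1 hs).1
  have hP2nn : 0 ≤ ∏ s ∈ (Sw w).filter (· ∈ Q), (1 - 1 / (s : ℝ)) := by
    refine Finset.prod_nonneg fun s hs => ?_
    have : (1 : ℝ) ≤ s := by exact_mod_cast hSwm s (Finset.mem_filter.1 hs).1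
    rw [sub_nonneg, div_le_one (by linarith)]
    exact this
  have hP0le : P0 ≤ C₁ / (c * Real.log Y) * Real.exp (-A) :=
    mul_le_mul hP1 hP2 hP2nn (by positivity)
  have hS0 : 0 ≤ S := Finset.sum_nonneg fun p _ => by positivity
  have hlX : Real.log (X : ℝ) ≤ 2 * Real.log x := by
    rw [← Real.log_rpow hxpos]
    refine Real.log_le_log hXpos ?_
    have h1 : X ≤ x ^ 2 := by omega
    have h2 : (X : ℝ) ≤ (x : ℝ) ^ (2 : ℕ) := by exact_mod_cast h1
    rw [show (2 : ℝ) = ((2 : ℕ) : ℝ) by norm_num, Real.rpow_natCast]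
    exact h2
  have hlX0 : 0 < Real.log (X : ℝ) := Real.log_pos (by linarith)
  have h1 : c₀ * V ≤ 9 * Real.log X * P0 * S := by
    have h2 := hlow.trans hcount
    have h3 : c₀ * (X / Real.log X) * V = X * (c₀ * V) / Real.log X := by ring
    rw [h3, div_le_iff₀ hlX0] at h2
    have h4 : 9 * X * P0 * S * Real.log X = X * (9 * Real.log X * P0 * S) := by ring
    rw [h4] at h2
    exact le_of_mul_le_mul_left h2 hXpos
  have h2 : 9 * Real.log X * P0 * S ≤
      9 * (2 * Real.log x) * (C₁ / (c * Real.log Y) * Real.exp (-A)) * S := by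
    refine mul_le_mul_of_nonneg_right ?_ hS0
    refine (mul_le_mul_of_nonneg_left hP0le (by positivity)).trans ?_
    refine mul_le_mul_of_nonneg_right ?_ (by positivity)
    linarith
  have h3 : c₀ * Real.exp (-A - e0 - 6) ≤ c₀ * V := mul_le_mul_of_nonneg_left hVlow hc0.le
  have h4 : Real.exp (-A - e0 - 6) = Real.exp (-A) * (Real.exp (-e0) * Real.exp (-6)) := by
    rw [← Real.exp_add, ← Real.exp_add]
    ring_nf
  rw [h4] at h3
  have h5 : Real.exp (-A) * (c₀ * (Real.exp (-e0) * Real.exp (-6))) ≤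
      Real.exp (-A) * (9 * (2 * Real.log x) * (C₁ / (c * Real.log Y)) * S) := by
    have h6 := (h3.trans h1).trans h2
    have e1 : c₀ * (Real.exp (-A) * (Real.exp (-e0) * Real.exp (-6))) =
        Real.exp (-A) * (c₀ * (Real.exp (-e0) * Real.exp (-6))) := by ring
    have e2 : 9 * (2 * Real.log x) * (C₁ / (c * Real.log Y) * Real.exp (-A)) * S =
        Real.exp (-A) * (9 * (2 * Real.log x) * (C₁ / (c * Real.log Y)) * S) := by ring
    rw [e1, e2] at h6
    exact h6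
  have h6 := le_of_mul_le_mul_left h5 (Real.exp_pos _)
  have h7 : 9 * (2 * Real.log x) * (C₁ / (c * Real.log Y)) * S =
      (18 * C₁ * Real.log x / (c * Real.log Y)) * S := by ring
  rw [h7] at h6
  have h8 : δ * (Real.log Y / Real.log x) * Real.exp (-e0) =
      (c₀ * (Real.exp (-e0) * Real.exp (-6))) / (18 * C₁ * Real.log x / (c * Real.log Y)) := by
    rw [hδ]
    field_simp
  rw [h8, div_le_iff₀ (by positivity)]
  linarith

end Pool.Agent.Helper13.JC
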