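import Pool.Agent.Helper13.JC.C1

/-!
# MP_924f75: coverings and a common class, general centre, consequences
-/

set_option autoImplicit false

namespace Pool.Agent.Helper13.JC

open Finset Pool.Agent.Helper60.GP

open Classical in
/-- the sum of `1 / p` over the primes `u < p ≤ v` with `a p ≢ b (mod p)` -/
noncomputable def offSum (a : ℕ → ℤ) (b : ℤ) (u v : ℝ) : ℝ :=
  ∑ p ∈ (Icc 1 ⌊v⌋₊).filter (fun p : ℕ => p.Prime ∧ u < (p : ℝ) ∧ ¬ a p ≡ b [ZMOD (p : ℤ)]),
    1 / (p : ℝ)

/-- the centre is moved to `0` -/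
theorem shift {x y : ℕ} {a : ℕ → ℤ} (h : Cov x y a) (b : ℕ) (hb : b ≤ y) :
    ∃ (y' : ℕ) (a' : ℕ → ℤ), Cov x y' a' ∧ y' ≤ y ∧ y ≤ 2 * y' + 1 ∧
      ∀ p : ℕ, (p : ℤ) ∣ a' p ↔ a p ≡ (b : ℤ) [ZMOD (p : ℤ)] := by
  by_cases h2 : 2 * b ≤ y
  · refine ⟨y - b, fun p => a p - b, ?_, Nat.sub_le _ _, by omega, fun p => ?_⟩
    · intro n hn1 hn2
      obtain ⟨p, hp, hpx, hc⟩ := h (b + n) (by omega) (by omega)
      refine ⟨p, hp, hpx, ?_⟩
      have h3 := Int.modEq_iff_dvd.1 hc
      rw [Int.modEq_iff_dvd]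
      push_cast at h3
      have e : a p - b - n = a p - (b + n) := by ring
      rw [e]
      exact h3
    · rw [Int.modEq_comm, Int.modEq_iff_dvd]
  · refine ⟨b - 1, fun p => b - a p, ?_, by omega, by omega, fun p => ?_⟩
    · intro n hn1 hn2
      obtain ⟨p, hp, hpx, hc⟩ := h (b - n) (by omega) (by omega)
      refine ⟨p, hp, hpx, ?_⟩
      have h3 := Int.modEq_iff_dvd.1 hc.symm
      rw [Int.modEq_iff_dvd]
      rw [Nat.cast_sub (by omega)] at h3
      have e : (b : ℤ) - a p - n = (b - n) - a p := by ring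
      rw [e]
      exact h3
    · rw [Int.modEq_iff_dvd]

theorem cov_mono {x y y' : ℕ} {a : ℕ → ℤ} (h : Cov x y a) (hy : y' ≤ y) : Cov x y' a :=
  fun n h1 h2 => h n h1 (h2.trans hy)

theorem sum_E1 {x b : ℕ} {u : ℝ} {a a' : ℕ → ℤ}
    (h : ∀ p : ℕ, (p : ℤ) ∣ a' p ↔ a p ≡ (b : ℤ) [ZMOD (p : ℤ)]) :
    ∑ p ∈ E1 x u a', 1 / (p : ℝ) = offSum a b u x := by
  unfold offSum
  refine Finset.sum_congr ?_ fun _ _ => rfl
  ext p
  rw [mem_E1, Finset.mem_filter, Finset.mem_Icc, Nat.floor_natCast, h]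
  exact ⟨fun h => ⟨⟨h.2.1.one_lt.le, h.1⟩, h.2⟩, fun h => ⟨h.1.2, h.2⟩⟩

theorem sum_E0 {x b : ℕ} {t u : ℝ} (hu : u ≤ x) (hu0 : 0 ≤ u) {a a' : ℕ → ℤ}
    (h : ∀ p : ℕ, (p : ℤ) ∣ a' p ↔ a p ≡ (b : ℤ) [ZMOD (p : ℤ)]) :
    ∑ p ∈ E0 x t u a', 1 / (p : ℝ) = offSum a b t u := by
  unfold offSum
  refine Finset.sum_congr ?_ fun _ _ => rfl
  ext p
  rw [mem_E0, Finset.mem_filter, Finset.mem_Icc, Nat.le_floor_iff hu0, h]
  constructor
  · rintro ⟨h1, h2, h3, h4, h5⟩
    exact ⟨⟨h2.one_lt.le, h4⟩, h2, h3, h5⟩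
  · rintro ⟨⟨h1, h4⟩, h2, h3, h5⟩
    refine ⟨?_, h2, h3, h4, h5⟩
    have : (p : ℝ) ≤ x := h4.trans hu
    exact_mod_cast this

theorem offSum_nonneg (a : ℕ → ℤ) (b : ℤ) (u v : ℝ) : 0 ≤ offSum a b u v :=
  Finset.sum_nonneg fun p _ => by positivity

theorem offSum_anti (a : ℕ → ℤ) (b : ℤ) {u u' v : ℝ} (h : u ≤ u') :
    offSum a b u' v ≤ offSum a b u v := by
  classical
  unfold offSum
  refine Finset.sum_le_sum_of_subset_of_nonneg (fun p hp => ?_) fun p _ _ => by positivity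
  simp only [Finset.mem_filter] at hp ⊢
  exact ⟨hp.1, hp.2.1, h.trans_lt hp.2.2.1, hp.2.2.2⟩

theorem offSum_mono (a : ℕ → ℤ) (b : ℤ) {u v v' : ℝ} (h : v ≤ v') :
    offSum a b u v ≤ offSum a b u v' := by
  classical
  unfold offSum
  refine Finset.sum_le_sum_of_subset_of_nonneg (fun p hp => ?_) fun p _ _ => by positivity
  simp only [Finset.mem_filter, Finset.mem_Icc] at hp ⊢
  exact ⟨⟨hp.1.1, hp.1.2.trans (Nat.floor_le_floor h)⟩, hp.2⟩

/-- sums over adjacent ranges -/
theorem offSum_split (a : ℕ → ℤ) (b : ℤ) (u z v : ℝ) :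
    offSum a b u v ≤ offSum a b u z + offSum a b z v := by
  classical
  unfold offSum
  set S := (Icc 1 ⌊v⌋₊).filter (fun p : ℕ => p.Prime ∧ u < (p : ℝ) ∧ ¬ a p ≡ b [ZMOD (p : ℤ)])
  set S1 := (Icc 1 ⌊z⌋₊).filter (fun p : ℕ => p.Prime ∧ u < (p : ℝ) ∧ ¬ a p ≡ b [ZMOD (p : ℤ)])
  set S2 := (Icc 1 ⌊v⌋₊).filter (fun p : ℕ => p.Prime ∧ z < (p : ℝ) ∧ ¬ a p ≡ b [ZMOD (p : ℤ)])
  have h1 : S ⊆ S1 ∪ S2 := by
    intro p hp
    simp only [S, S1, S2, Finset.mem_union, Finset.mem_filter, Finset.mem_Icc] at hp ⊢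
    by_cases hpz : (p : ℝ) ≤ z
    · left
      exact ⟨⟨hp.1.1, Nat.le_floor hpz⟩, hp.2⟩
    · right
      push Not at hpz
      exact ⟨hp.1, hp.2.1, hpz, hp.2.2.2⟩
  have h2 := Finset.sum_le_sum_of_subset_of_nonneg h1 (f := fun s : ℕ => 1 / (s : ℝ))
    fun s _ _ => by positivity
  have h3 := Finset.sum_union_inter (s₁ := S1) (s₂ := S2) (f := fun s : ℕ => 1 / (s : ℝ))
  have h4 : 0 ≤ ∑ s ∈ S1 ∩ S2, 1 / (s : ℝ) := Finset.sum_nonneg fun s _ => by positivity
  linarith

/-- Mertens for `offSum` -/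
theorem offSum_mert : ∃ C : ℝ, 0 < C ∧ ∀ (a : ℕ → ℤ) (b : ℤ) (t z : ℝ), 1 < t → 2 ≤ z →
    Real.log t * Real.exp (offSum a b t z) ≤ C * max (Real.log z) (Real.log t) := by
  obtain ⟨C, hC, hM⟩ := mert
  refine ⟨2 * Real.exp (2 * C), by positivity, fun a b t z ht hz => ?_⟩
  have hlt : 0 < Real.log t := Real.log_pos ht
  have hlz : 0 < Real.log z := Real.log_pos (by linarith)
  have hC1 : 1 ≤ Real.exp (2 * C) := Real.one_le_exp (by linarith)
  by_cases htz : z ≤ t
  · have h1 : offSum a b t z = 0 := by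
      classical
      unfold offSum
      refine Finset.sum_eq_zero fun p hp => ?_
      simp only [Finset.mem_filter, Finset.mem_Icc] at hp
      have h2 := (Nat.le_floor_iff (by linarith)).1 hp.1.2
      have h3 := hp.2.2.1
      linarith
    rw [h1, Real.exp_zero, mul_one]
    have h2 := le_max_right (Real.log z) (Real.log t)
    nlinarith
  · push Not at htz
    set n := ⌊z⌋₊ with hn
    have hn2 : 2 ≤ n := Nat.le_floor (by exact_mod_cast hz)
    have hnz : (n : ℝ) ≤ z := Nat.floor_le (by linarith)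
    have hup := (abs_le.1 (hM n hn2)).2
    have hln : 0 < Real.log (n : ℝ) := Real.log_pos (by exact_mod_cast hn2)
    have hlnz : Real.log (Real.log n) ≤ Real.log (Real.log z) :=
      Real.log_le_log hln (Real.log_le_log (by exact_mod_cast (by omega : 0 < n)) hnz)
    set w := ⌊t⌋₊ with hw
    have hw1 : 1 ≤ w := Nat.le_floor (by exact_mod_cast ht.le)
    have htw : t < w + 1 := Nat.lt_floor_add_one t
    have hwt : (w : ℝ) ≤ t := Nat.floor_le (by linarith)
    have key : offSum a b t z ≤ Real.log (Real.log z) - Real.log (Real.log t) +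
        (Real.log 2 + 2 * C) := by
      classical
      rcases hw1.lt_or_eq with hw2 | hw2
      · have hlow := (abs_le.1 (hM w hw2)).1
        have h1 : offSum a b t z + ∑ s ∈ (Icc 1 w).filter Nat.Prime, 1 / (s : ℝ) ≤
            ∑ s ∈ (Icc 1 n).filter Nat.Prime, 1 / (s : ℝ) := by
          unfold offSum
          rw [← Finset.sum_union]
          · refine Finset.sum_le_sum_of_subset_of_nonneg (fun s hs => ?_) fun s _ _ => by positivity
            simp only [Finset.mem_union, Finset.mem_filter, Finset.mem_Icc] at hs ⊢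
            rcases hs with hs | hs
            · exact ⟨hs.1, hs.2.1⟩
            · refine ⟨⟨hs.1.1, hs.1.2.trans ?_⟩, hs.2⟩
              exact Nat.floor_le_floor htz.le
          · rw [Finset.disjoint_left]
            intro s hs hs'
            simp only [Finset.mem_filter, Finset.mem_Icc] at hs hs'
            have h2 : (s : ℝ) ≤ w := by exact_mod_cast hs'.1.2
            linarith [hs.2.2.1]
        have hlw : 0 < Real.log (w : ℝ) := Real.log_pos (by exact_mod_cast hw2)
        have h2 : Real.log t ≤ 2 * Real.log w := by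
          rw [← Real.log_rpow (by exact_mod_cast (by omega : 0 < w))]
          refine Real.log_le_log (by linarith) ?_
          rw [Real.rpow_two]
          have h3 : (2 : ℝ) ≤ w := by exact_mod_cast hw2
          nlinarith
        have h3 : Real.log (Real.log t) ≤ Real.log 2 + Real.log (Real.log w) := by
          rw [← Real.log_mul (by norm_num) hlw.ne']
          exact Real.log_le_log hlt h2
        linarith
      · have h1 : offSum a b t z ≤ ∑ s ∈ (Icc 1 n).filter Nat.Prime, 1 / (s : ℝ) := by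
          unfold offSum
          refine Finset.sum_le_sum_of_subset_of_nonneg (fun s hs => ?_) fun s _ _ => by positivity
          simp only [Finset.mem_filter] at hs ⊢
          exact ⟨hs.1, hs.2.1⟩
        have h2 : t ≤ 2 := by
          rw [← hw2] at htw
          push_cast at htw
          linarith
        have h3 : Real.log (Real.log t) ≤ 0 := by
          refine Real.log_nonpos hlt.le ?_
          have h4 := Real.log_le_log (by linarith) h2
          have h5 := Real.log_two_lt_d9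
          linarith
        have h4 : 0 ≤ Real.log 2 := Real.log_nonneg (by norm_num)
        linarith
    have h1 : Real.exp (offSum a b t z) ≤
        Real.log z / Real.log t * (2 * Real.exp (2 * C)) := by
      refine (Real.exp_le_exp.2 key).trans (le_of_eq ?_)
      rw [Real.exp_add, Real.exp_sub, Real.exp_log hlz, Real.exp_log hlt, Real.exp_add,
        Real.exp_log (by norm_num)]
    have h2 := mul_le_mul_of_nonneg_left h1 hlt.le
    have h3 : Real.log t * (Real.log z / Real.log t * (2 * Real.exp (2 * C))) =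
        2 * Real.exp (2 * C) * Real.log z := by
      field_simp
    rw [h3] at h2
    refine h2.trans (mul_le_mul_of_nonneg_left (le_max_left _ _) (by positivity))

/-- the main inequality, general centre -/
theorem centre (hBVc : StBVc) (hPNT : StPNT) (hBump : StBump) :
    ∃ c δ x₀ : ℝ, 0 < c ∧ c ≤ 1 / 4 ∧ 0 < δ ∧ 2 ≤ x₀ ∧ ∀ x y : ℕ, x₀ ≤ x → 64 * x ≤ y →
      y ≤ x ^ 2 → ∀ a : ℕ → ℤ, Cov x y a → ∀ b : ℕ, b ≤ y →
      δ * (Real.log ((y : ℝ) / x) / Real.log x) *
        Real.exp (-offSum a b (((y : ℝ) / x) ^ δ) ((x : ℝ) ^ c)) ≤ offSum a b ((x : ℝ) ^ c) x := by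
  obtain ⟨c, δ, x₀, hc, hc4, hδ, hx0, hmain⟩ := centre0 hBVc hPNT hBump
  refine ⟨c, min (δ / 2) (c / 2), x₀, hc, hc4, lt_min (by positivity) (by positivity), hx0, ?_⟩
  intro x y hx hxy hyx a hcov b hb
  set δ' := min (δ / 2) (c / 2) with hδ'
  have hδ'0 : 0 < δ' := lt_min (by positivity) (by positivity)
  have hx2 : (2 : ℝ) ≤ x := hx0.trans hx
  have hxpos : (0 : ℝ) < x := by linarith
  obtain ⟨y', a', hcov', hy'1, hy'2, hdvd⟩ := shift hcov b hb
  have h16 : 16 * x ≤ y' := by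
    have : 2 ≤ x := by exact_mod_cast hx2
    omega
  have h1 := hmain x y' hx h16 (hy'1.trans hyx) a' hcov'
  rw [sum_E1 hdvd, sum_E0 _ (by positivity) hdvd] at h1
  swap
  · nth_rewrite 2 [← Real.rpow_one (x : ℝ)]
    exact Real.rpow_le_rpow_of_exponent_le (by linarith) (by linarith)
  refine le_trans ?_ h1
  set Y : ℝ := (y : ℝ) / x with hY
  set Y' : ℝ := (y' : ℝ) / x with hY'
  have hY64 : 64 ≤ Y := by
    rw [hY, le_div_iff₀ hxpos]
    exact_mod_cast hxy
  have hYY' : Y / 4 ≤ Y' := by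
    rw [hY, hY', div_div, div_le_div_iff₀ (by positivity) hxpos]
    have hx2' : 2 ≤ x := by exact_mod_cast hx2
    have h3 : y ≤ y' * 4 := by omega
    have h4 : (y : ℝ) ≤ y' * 4 := by exact_mod_cast h3
    have := mul_le_mul_of_nonneg_right h4 hxpos.le
    linarith
  have hsq : Y ^ (1 / 2 : ℝ) ≤ Y' := by
    refine le_trans ?_ hYY'
    rw [← Real.sqrt_eq_rpow]
    have h4 : √Y * √Y = Y := Real.mul_self_sqrt (by linarith)
    have h5 : 4 ≤ √Y := by
      rw [Real.le_sqrt (by norm_num) (by linarith)]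
      linarith
    nlinarith
  have hYs : 1 ≤ Y ^ (1 / 2 : ℝ) := Real.one_le_rpow (by linarith) (by norm_num)
  have hlY : 0 < Real.log Y := Real.log_pos (by linarith)
  have hlY' : Real.log Y / 2 ≤ Real.log Y' := by
    have h3 : Real.log (Y ^ (1 / 2 : ℝ)) = 1 / 2 * Real.log Y := Real.log_rpow (by linarith) _
    have h4 := Real.log_le_log (by linarith) hsq
    linarith
  have hlx : 0 < Real.log (x : ℝ) := Real.log_pos (by linarith)
  have h2 : Y ^ δ' ≤ Y' ^ c := by
    have h3 : Y ^ δ' ≤ Y ^ (1 / 2 * c) := by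
      refine Real.rpow_le_rpow_of_exponent_le (by linarith) ?_
      have := min_le_right (δ / 2) (c / 2)
      linarith
    rw [Real.rpow_mul (by linarith)] at h3
    exact h3.trans (Real.rpow_le_rpow (by linarith) hsq hc.le)
  have h3 := offSum_anti a b (v := (x : ℝ) ^ c) h2
  refine mul_le_mul ?_ (Real.exp_le_exp.2 (by linarith)) (Real.exp_pos _).le (by
    have : 0 < Real.log Y' := by linarith
    positivity)
  have h4 : δ' * (Real.log Y / Real.log x) ≤ δ / 2 * (Real.log Y / Real.log x) :=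
    mul_le_mul_of_nonneg_right (min_le_left _ _) (by positivity)
  refine h4.trans ?_
  have h5 : δ / 2 * (Real.log Y / Real.log x) = δ * ((Real.log Y / 2) / Real.log x) := by ring
  rw [h5]
  exact mul_le_mul_of_nonneg_left (div_le_div_of_nonneg_right hlY' hlx.le) hδ.le

end Pool.Agent.Helper13.JC
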