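import Pool.Agent.Helper13.JC.C2
import Pool.Agent.Helper60.GP.M_M1

/-!
# MP_924f75: coverings and a common class, consequences
-/

set_option autoImplicit false

namespace Pool.Agent.Helper13.JC

open Finset Pool.Agent.Helper60.GP

/-- a polynomial bound for the length of a covering -/
theorem poly (hBVc : StBVc) (hPNT : StPNT) (hBump : StBump) :
    ∃ A x₀ : ℝ, 2 ≤ A ∧ 2 ≤ x₀ ∧ ∀ x y : ℕ, x₀ ≤ x → ∀ a : ℕ → ℤ, Cov x y a →
      (y : ℝ) ≤ (x : ℝ) ^ A := by
  classical
  obtain ⟨c₀, κ, X₀, hc0, hκ, hκ4, hX0, hL⟩ := lower hBVc hPNT hBump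
  refine ⟨1 / κ + 4, max X₀ 3, ?_, hX0.trans (le_max_left _ _), ?_⟩
  · have : 0 < 1 / κ := by positivity
    linarith
  intro x y hx a hcov
  by_contra hy
  push Not at hy
  have hxX0 : X₀ ≤ (x : ℝ) := (le_max_left _ _).trans hx
  have hx3 : (3 : ℝ) ≤ x := (le_max_right _ _).trans hx
  have hx3' : 3 ≤ x := by exact_mod_cast hx3
  have hxpos : (0 : ℝ) < x := by linarith
  have hκ1 : 1 ≤ 1 / κ := by
    rw [le_div_iff₀ hκ]
    linarith
  set X := y / 4 with hXd
  have hX1 : 4 * X ≤ y := by omega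
  have hX2 : y < 4 * X + 4 := by omega
  have hpow : (x : ℝ) ^ (1 / κ) * x ^ 4 < y := by
    have h1 : (x : ℝ) ^ (1 / κ + 4) = (x : ℝ) ^ (1 / κ) * x ^ 4 := by
      rw [Real.rpow_add hxpos]
      norm_num
    rwa [h1] at hy
  have hxk : (x : ℝ) ≤ (x : ℝ) ^ (1 / κ) := by
    nth_rewrite 1 [← Real.rpow_one (x : ℝ)]
    exact Real.rpow_le_rpow_of_exponent_le (by linarith) hκ1
  have h4 : (81 : ℝ) ≤ (x : ℝ) ^ 4 := by
    have : (3 : ℝ) ^ 4 ≤ (x : ℝ) ^ 4 := pow_le_pow_left₀ (by norm_num) hx3 4
    norm_num at this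
    exact this
  have hXk : (x : ℝ) ^ (1 / κ) ≤ X := by
    have h5 : (y : ℝ) < 4 * X + 4 := by exact_mod_cast hX2
    nlinarith
  have hXx : (x : ℝ) ≤ X := hxk.trans hXk
  have hXx' : x ≤ X := by exact_mod_cast hXx
  obtain ⟨m, c, hm, hm2, hms⟩ := reduce a
  set Q : Finset ℕ := (Icc 3 x).filter (fun s : ℕ => s.Prime ∧ ¬ (s : ℤ) ∣ a s) with hQ
  have hQ1 : ∀ s ∈ Q, s.Prime ∧ 3 ≤ s ∧ (s : ℝ) ≤ (X : ℝ) ^ κ := by
    intro s hs
    rw [hQ, Finset.mem_filter, Finset.mem_Icc] at hs
    refine ⟨hs.2.1, hs.1.1, ?_⟩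
    have h5 : (s : ℝ) ≤ x := by exact_mod_cast hs.1.2
    refine h5.trans ?_
    have h6 : (x : ℝ) = ((x : ℝ) ^ (1 / κ)) ^ κ := by
      rw [← Real.rpow_mul hxpos.le, one_div, inv_mul_cancel₀ hκ.ne', Real.rpow_one]
    rw [h6]
    exact Real.rpow_le_rpow (by positivity) hXk hκ.le
  have hQ2 : ∀ s ∈ Q, ¬ (s : ℤ) ∣ c s := by
    intro s hs
    have hs' := hs
    rw [hQ, Finset.mem_filter, Finset.mem_Icc] at hs
    rw [(hms s hs.2.1 hs.1.1).1]
    exact hs.2.2
  have h5 := hL X (hxX0.trans hXx) Q c hQ1 hQ2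
  have h6 : 0 < c₀ * (X / Real.log X) * ∏ s ∈ Q, (1 - 1 / ((s : ℝ) - 1)) := by
    have hlX : 0 < Real.log (X : ℝ) := Real.log_pos (by linarith)
    have hX0' : (0 : ℝ) < X := by linarith
    refine mul_pos (by positivity) (Finset.prod_pos fun s hs => ?_)
    have h7 := (hQ1 s hs).2.1
    have h8 : (3 : ℝ) ≤ s := by exact_mod_cast h7
    have h9 : 1 / ((s : ℝ) - 1) ≤ 1 / 2 := one_div_le_one_div_of_le (by norm_num) (by linarith)
    linarith
  have h7 := h6.trans_le h5
  have h8 : 0 < ((Ioc X (2 * X)).filter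
      (fun q : ℕ => q.Prime ∧ ∀ s ∈ Q, ¬ (s : ℤ) ∣ (q : ℤ) - c s)).card := by exact_mod_cast h7
  obtain ⟨q, hq⟩ := Finset.card_pos.1 h8
  rw [Finset.mem_filter, Finset.mem_Ioc] at hq
  obtain ⟨⟨hq1, hq2⟩, hqp, hqs⟩ := hq
  have hm12 : 1 ≤ m ∧ m ≤ 2 := by omega
  have hmq1 : 1 ≤ m * q := Nat.mul_pos hm12.1 hqp.pos
  have hmq2 : m * q ≤ y := by
    have := Nat.mul_le_mul hm12.2 hq2
    omega
  obtain ⟨s, hsp, hsx, hs⟩ := hcov (m * q) hmq1 hmq2
  have hs2 := hsp.two_le
  by_cases h3 : 3 ≤ s
  · obtain ⟨e1, e2⟩ := hms s hsp h3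
    have e3 := e2 q hs
    by_cases e4 : (s : ℤ) ∣ a s
    · have e5 : (s : ℤ) ∣ (q : ℤ) := (dvd_sub_left (e1.2 e4)).1 e3
      have e6 : s ∣ q := by exact_mod_cast e5
      have e7 := (Nat.prime_dvd_prime_iff_eq hsp hqp).1 e6
      omega
    · refine hqs s ?_ e3
      rw [hQ, Finset.mem_filter, Finset.mem_Icc]
      exact ⟨⟨h3, hsx⟩, hsp, e4⟩
  · have e1 : s = 2 := by omega
    subst e1
    exact hm2 q hqp (by omega) hs

/-- a covering of a long interval contains a covering of a short interval around `b` -/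
theorem cut {x y N : ℕ} {a : ℕ → ℤ} (h : Cov x y a) (b : ℕ) (hb : b ≤ y) (hN : N ≤ y) :
    ∃ (a' : ℕ → ℤ) (b' : ℕ), b' ≤ N ∧ Cov x N a' ∧
      ∀ u v : ℝ, offSum a' b' u v = offSum a b u v := by
  classical
  set k := min b (y - N) with hk
  have hkb : k ≤ b := min_le_left _ _
  have hkN : k ≤ y - N := min_le_right _ _
  refine ⟨fun p => a p - k, b - k, ?_, ?_, ?_⟩
  · rcases le_total b (y - N) with h1 | h1
    · have : k = b := min_eq_left h1
      omega
    · have : k = y - N := min_eq_right h1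
      omega
  · intro n hn1 hn2
    obtain ⟨p, hp, hpx, hc⟩ := h (k + n) (by omega) (by omega)
    refine ⟨p, hp, hpx, ?_⟩
    have h3 := Int.modEq_iff_dvd.1 hc
    rw [Int.modEq_iff_dvd]
    push_cast at h3
    have e : a p - k - n = a p - (k + n) := by ring
    rw [e]
    exact h3
  · intro u v
    unfold offSum
    refine Finset.sum_congr ?_ fun _ _ => rfl
    ext p
    simp only [Finset.mem_filter]
    refine and_congr_right fun _ => and_congr_right fun _ => and_congr_right fun _ => not_congr ?_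
    rw [Int.modEq_iff_dvd, Int.modEq_iff_dvd]
    have e : ((b - k : ℕ) : ℤ) - (a p - k) = (b : ℤ) - a p := by
      rw [Nat.cast_sub hkb]
      ring
    rw [e]

/-- the bound in terms of the sum from a point `z` on -/
theorem from_z (hBVc : StBVc) (hPNT : StPNT) (hBump : StBump) :
    ∃ c C x₀ : ℝ, 0 < c ∧ c ≤ 1 / 4 ∧ 1 ≤ C ∧ 2 ≤ x₀ ∧ ∀ x y : ℕ, x₀ ≤ x →
      ∀ a : ℕ → ℤ, Cov x y a → ∀ b : ℕ, b ≤ y → ∀ z : ℝ, 2 ≤ z → z ≤ (x : ℝ) ^ c →
      (y : ℝ) ≤ C * x * Real.exp (C * (√(offSum a b z x * Real.log x * Real.log z) +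
        offSum a b z x * Real.log x)) := by
  obtain ⟨c, δ, x₀, hc, hc4, hδ, hx0, hmain⟩ := centre hBVc hPNT hBump
  obtain ⟨A, x₁, hA, hx1, hpoly⟩ := poly hBVc hPNT hBump
  obtain ⟨C₀, hC0, hM⟩ := offSum_mert
  -- constants
  set η : ℝ := δ * δ / (C₀ * max c δ) with hη
  have hη0 : 0 < η := by positivity
  set C₁ : ℝ := C₀ * Real.exp 1 / (δ * δ) with hC1
  have hC10 : 0 < C₁ := by positivity
  set C₂ : ℝ := C₀ * Real.exp 1 / δ with hC2
  have hC20 : 0 < C₂ := by positivity
  set C : ℝ := 64 + A / η + √C₁ + C₂ with hC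
  have hAη : 0 < A / η := by positivity
  have hsC1 : 0 ≤ √C₁ := Real.sqrt_nonneg _
  refine ⟨c, C, max x₀ (max x₁ 64), hc, hc4, by linarith, hx0.trans (le_max_left _ _), ?_⟩
  intro x y hx a hcov b hb z hz hzx
  have hxx0 : x₀ ≤ (x : ℝ) := (le_max_left _ _).trans hx
  have hxx1 : x₁ ≤ (x : ℝ) := ((le_max_left _ _).trans (le_max_right _ _)).trans hx
  have hx64 : (64 : ℝ) ≤ x := ((le_max_right _ _).trans (le_max_right _ _)).trans hx
  have hx64' : 64 ≤ x := by exact_mod_cast hx64
  have hxpos : (0 : ℝ) < x := by linarith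
  have hlx : 0 < Real.log (x : ℝ) := Real.log_pos (by linarith)
  have hlz : 0 < Real.log z := Real.log_pos (by linarith)
  set S := offSum a b z x with hS
  have hS0 : 0 ≤ S := offSum_nonneg _ _ _ _
  set R := √(S * Real.log x * Real.log z) + S * Real.log x with hR
  have hR0 : 0 ≤ R := by positivity
  have hRS : S * Real.log x ≤ R := by
    have := Real.sqrt_nonneg (S * Real.log x * Real.log z)
    linarith
  have hCR : 1 ≤ Real.exp (C * R) := Real.one_le_exp (by positivity)
  have hC64 : 64 ≤ C := by linarith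
  -- enough: log (y/x) ≤ C R
  have hfin : ∀ L : ℝ, 0 ≤ L → L ≤ C * R → (y : ℝ) ≤ x * Real.exp L →
      (y : ℝ) ≤ C * x * Real.exp (C * R) := by
    intro L _ h1 h2
    have h3 := Real.exp_le_exp.2 h1
    have h4 := mul_le_mul_of_nonneg_left h3 hxpos.le
    have h5 : (x : ℝ) * Real.exp (C * R) ≤ C * (x * Real.exp (C * R)) := by
      have h6 : 0 ≤ (x : ℝ) * Real.exp (C * R) := by positivity
      nlinarith
    have h6 : C * (x * Real.exp (C * R)) = C * x * Real.exp (C * R) := by ring
    linarith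
  by_cases hy64 : 64 * x ≤ y
  swap
  · push Not at hy64
    have h1 : (y : ℝ) ≤ 64 * x := by exact_mod_cast hy64.le
    have h2 : (64 : ℝ) * x ≤ C * x := by nlinarith
    have h3 : C * x ≤ C * x * Real.exp (C * R) := by
      have : 0 ≤ C * x := by positivity
      nlinarith
    linarith
  by_cases hyx : y ≤ x ^ 2
  · have h1 := hmain x y hxx0 hy64 hyx a hcov b hb
    set Y : ℝ := (y : ℝ) / x with hY
    have hY64 : 64 ≤ Y := by
      rw [hY, le_div_iff₀ hxpos]
      exact_mod_cast hy64
    have hlY : 0 < Real.log Y := Real.log_pos (by linarith)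
    have hyY : (y : ℝ) = x * Real.exp (Real.log Y) := by
      rw [Real.exp_log (by linarith), hY]
      field_simp
    have h2 : offSum a b ((x : ℝ) ^ c) x ≤ S := offSum_anti a b hzx
    by_cases hS1 : 1 ≤ S
    · -- trivial
      refine hfin (Real.log x) hlx.le ?_ ?_
      · have h3 : Real.log x ≤ S * Real.log x := by nlinarith
        have h4 : R ≤ C * R := by nlinarith
        linarith
      · rw [Real.exp_log hxpos]
        have h3 : (y : ℝ) ≤ (x : ℝ) ^ 2 := by exact_mod_cast hyx
        rw [pow_two] at h3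
        exact h3
    · push Not at hS1
      have h3 := offSum_split a b (Y ^ δ) z ((x : ℝ) ^ c)
      have h4 : offSum a b z ((x : ℝ) ^ c) ≤ S := by
        refine offSum_mono a b ?_
        nth_rewrite 2 [← Real.rpow_one (x : ℝ)]
        exact Real.rpow_le_rpow_of_exponent_le (by linarith) (by linarith)
      have hYδ : 1 < Y ^ δ := Real.one_lt_rpow (by linarith) hδ
      have h5 := hM a b (Y ^ δ) z hYδ hz
      have h6 : Real.log (Y ^ δ) = δ * Real.log Y := Real.log_rpow (by linarith) _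
      rw [h6] at h5
      set G := offSum a b (Y ^ δ) z with hG
      set M := max (Real.log z) (δ * Real.log Y) with hMd
      have hM0 : 0 < M := lt_of_lt_of_le hlz (le_max_left _ _)
      -- the exponential
      have h7 : Real.exp (-(G + 1)) ≤ Real.exp (-offSum a b (Y ^ δ) ((x : ℝ) ^ c)) :=
        Real.exp_le_exp.2 (by linarith)
      have h8 : δ * Real.log Y / (C₀ * M) ≤ Real.exp (-G) := by
        rw [div_le_iff₀ (by positivity)]
        have e1 := mul_le_mul_of_nonneg_left h5 (Real.exp_pos (-G)).le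
        have e2 : Real.exp (-G) * (δ * Real.log Y * Real.exp G) = δ * Real.log Y := by
          rw [Real.exp_neg]
          field_simp
        rw [e2] at e1
        linarith
      have h9 : Real.exp (-(G + 1)) = Real.exp (-G) / Real.exp 1 := by
        rw [neg_add, Real.exp_add, Real.exp_neg 1]
        rfl
      have h10 : δ * (Real.log Y / Real.log x) * (δ * Real.log Y / (C₀ * M) / Real.exp 1) ≤ S := by
        have e1 : δ * Real.log Y / (C₀ * M) / Real.exp 1 ≤
            Real.exp (-offSum a b (Y ^ δ) ((x : ℝ) ^ c)) := by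
          refine le_trans ?_ h7
          rw [h9]
          exact div_le_div_of_nonneg_right h8 (Real.exp_pos _).le
        have e2 : 0 ≤ δ * (Real.log Y / Real.log x) := by positivity
        exact (mul_le_mul_of_nonneg_left e1 e2).trans (h1.trans h2)
      have h11 : Real.log Y * Real.log Y ≤ C₁ * (S * Real.log x * M) := by
        have e1 : δ * (Real.log Y / Real.log x) * (δ * Real.log Y / (C₀ * M) / Real.exp 1) =
            (Real.log Y * Real.log Y) / (C₁ * (Real.log x * M)) := by
          rw [hC1]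
          field_simp
        rw [e1, div_le_iff₀ (by positivity)] at h10
        linarith
      refine hfin (Real.log Y) hlY.le ?_ hyY.le
      rcases le_total (Real.log z) (δ * Real.log Y) with hcase | hcase
      · have e1 : M = δ * Real.log Y := max_eq_right hcase
        rw [e1] at h11
        have e2 : Real.log Y ≤ C₁ * δ * (S * Real.log x) := by
          have e3 : Real.log Y * Real.log Y ≤ (C₁ * δ * (S * Real.log x)) * Real.log Y := by
            linarith
          exact le_of_mul_le_mul_right e3 hlY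
        have e3 : C₁ * δ = C₂ := by
          rw [hC1, hC2]
          field_simp
        rw [e3] at e2
        have e4 : C₂ * (S * Real.log x) ≤ C₂ * R := mul_le_mul_of_nonneg_left hRS hC20.le
        have e5 : C₂ * R ≤ C * R := mul_le_mul_of_nonneg_right (by linarith) hR0
        linarith
      · have e1 : M = Real.log z := max_eq_left hcase
        rw [e1] at h11
        have e2 : Real.log Y ≤ √C₁ * √(S * Real.log x * Real.log z) := by
          rw [← Real.sqrt_mul hC10.le]
          exact Real.le_sqrt_of_sq_le (by rw [pow_two]; exact h11)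
        have e3 : √(S * Real.log x * Real.log z) ≤ R := by
          have : 0 ≤ S * Real.log x := by positivity
          linarith
        have e4 : √C₁ * √(S * Real.log x * Real.log z) ≤ √C₁ * R :=
          mul_le_mul_of_nonneg_left e3 hsC1
        have e5 : √C₁ * R ≤ C * R := mul_le_mul_of_nonneg_right (by linarith) hR0
        linarith
  · -- very long coverings
    push Not at hyx
    obtain ⟨a', b', hb', hcov', hoff⟩ := cut hcov b hb hyx.le
    have h64 : 64 * x ≤ x ^ 2 := by nlinarith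
    have h1 := hmain x (x ^ 2) hxx0 h64 le_rfl a' hcov' b' hb'
    rw [hoff, hoff] at h1
    have hYx : ((x ^ 2 : ℕ) : ℝ) / x = x := by
      push_cast
      field_simp
    rw [hYx, div_self hlx.ne', mul_one] at h1
    have h2 : offSum a b ((x : ℝ) ^ c) x ≤ S := offSum_anti a b hzx
    have hxδ : 1 < (x : ℝ) ^ δ := Real.one_lt_rpow (by linarith) hδ
    have hxc : 2 ≤ (x : ℝ) ^ c := hz.trans hzx
    have h5 := hM a b ((x : ℝ) ^ δ) ((x : ℝ) ^ c) hxδ hxc
    rw [Real.log_rpow hxpos, Real.log_rpow hxpos, ← max_mul_of_nonneg _ _ hlx.le] at h5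
    set G := offSum a b ((x : ℝ) ^ δ) ((x : ℝ) ^ c) with hG
    have h6 : δ / (C₀ * max c δ) ≤ Real.exp (-G) := by
      have hm0 : 0 < max c δ := lt_of_lt_of_le hc (le_max_left _ _)
      rw [div_le_iff₀ (by positivity)]
      have e0 : δ * Real.exp G ≤ C₀ * max c δ := by
        have e3 : (δ * Real.exp G) * Real.log x ≤ (C₀ * max c δ) * Real.log x := by linarith
        exact le_of_mul_le_mul_right e3 hlx
      have e1 := mul_le_mul_of_nonneg_left e0 (Real.exp_pos (-G)).le
      have e2 : Real.exp (-G) * (δ * Real.exp G) = δ := by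
        rw [Real.exp_neg]
        field_simp
      rw [e2] at e1
      linarith
    have h7 : η ≤ S := by
      have e1 := mul_le_mul_of_nonneg_left h6 hδ.le
      have e2 : δ * (δ / (C₀ * max c δ)) = η := by
        rw [hη]
        ring
      rw [e2] at e1
      linarith
    have h8 := hpoly x y hxx1 a hcov
    refine hfin (A * Real.log x) (by positivity) ?_ ?_
    · have e1 : A * Real.log x ≤ A / η * (S * Real.log x) := by
        have e2 : A * Real.log x = A / η * (η * Real.log x) := by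
          field_simp
        rw [e2]
        exact mul_le_mul_of_nonneg_left (mul_le_mul_of_nonneg_right h7 hlx.le) hAη.le
      have e3 : A / η * (S * Real.log x) ≤ A / η * R := mul_le_mul_of_nonneg_left hRS hAη.le
      have e5 : A / η * R ≤ C * R := mul_le_mul_of_nonneg_right (by linarith) hR0
      linarith
    · have e1 : Real.exp (A * Real.log x) = (x : ℝ) ^ A := by
        rw [Real.rpow_def_of_pos hxpos, mul_comm]
      rw [e1]
      have e2 : 0 ≤ (x : ℝ) ^ A := by positivity
      nlinarith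

/-- primes in a window `(x / T, x]` -/
theorem window (hM1 : StM1) : ∃ C : ℝ, 0 < C ∧ ∀ (x : ℕ) (T : ℝ), 4 ≤ x → 2 ≤ T → T * T ≤ x →
    ∀ (a : ℕ → ℤ) (b : ℤ), offSum a b ((x : ℝ) / T) x ≤ C * Real.log T / Real.log x := by
  obtain ⟨C, hC⟩ := hM1
  have hC0 : 0 ≤ C := (abs_nonneg _).trans (hC 1 le_rfl)
  refine ⟨2 * (1 + 2 * C / Real.log 2), by
    have : 0 < Real.log 2 := Real.log_pos (by norm_num)
    positivity, ?_⟩
  intro x T hx4 hT hTx a b
  classical
  have hx4' : (4 : ℝ) ≤ x := by exact_mod_cast hx4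
  have hxpos : (0 : ℝ) < x := by linarith
  have hTpos : 0 < T := by linarith
  have hl2 : 0 < Real.log 2 := Real.log_pos (by norm_num)
  have hlT : Real.log 2 ≤ Real.log T := Real.log_le_log (by norm_num) hT
  have hlx : 0 < Real.log (x : ℝ) := Real.log_pos (by linarith)
  have hxT1 : T ≤ x / T := by
    rw [le_div_iff₀ hTpos]
    exact hTx
  have hxT0 : 1 ≤ (x : ℝ) / T := by linarith
  have h1 := (abs_le.1 (hC x (by linarith))).2
  have h2 := (abs_le.1 (hC (x / T) hxT0)).1
  rw [Nat.floor_natCast] at h1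
  have hlxT : Real.log ((x : ℝ) / T) = Real.log x - Real.log T := Real.log_div hxpos.ne' hTpos.ne'
  have hhalf : Real.log x / 2 ≤ Real.log ((x : ℝ) / T) := by
    have h3 := Real.log_le_log (by positivity) hTx
    rw [Real.log_mul hTpos.ne' hTpos.ne'] at h3
    linarith
  set W := (Icc 1 ⌊(x : ℝ)⌋₊).filter
    (fun p : ℕ => p.Prime ∧ (x : ℝ) / T < (p : ℝ) ∧ ¬ a p ≡ b [ZMOD (p : ℤ)]) with hW
  have h3 : ∑ p ∈ W, Real.log p / p + ∑ p ∈ (Icc 1 ⌊(x : ℝ) / T⌋₊).filter Nat.Prime,
      Real.log p / p ≤ ∑ p ∈ (Icc 1 x).filter Nat.Prime, Real.log p / p := by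
    rw [← Finset.sum_union]
    · refine Finset.sum_le_sum_of_subset_of_nonneg (fun s hs => ?_) fun s hs _ => ?_
      · rw [Finset.mem_union] at hs
        rcases hs with hs | hs
        · rw [hW, Finset.mem_filter, Nat.floor_natCast] at hs
          rw [Finset.mem_filter]
          exact ⟨hs.1, hs.2.1⟩
        · rw [Finset.mem_filter, Finset.mem_Icc] at hs ⊢
          refine ⟨⟨hs.1.1, hs.1.2.trans ?_⟩, hs.2⟩
          have e : (x : ℝ) / T ≤ x := by
            rw [div_le_iff₀ hTpos]
            nlinarith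
          have := Nat.floor_le_floor e
          rwa [Nat.floor_natCast] at this
      · rw [Finset.mem_filter, Finset.mem_Icc] at hs
        have : (1 : ℝ) ≤ s := by exact_mod_cast hs.1.1
        exact div_nonneg (Real.log_nonneg this) (by positivity)
    · rw [Finset.disjoint_left]
      intro s hs hs'
      rw [hW, Finset.mem_filter] at hs
      rw [Finset.mem_filter, Finset.mem_Icc] at hs'
      have h5 := (Nat.le_floor_iff (by positivity)).1 hs'.1.2
      linarith [hs.2.2.1]
  have h4 : offSum a b ((x : ℝ) / T) x * Real.log ((x : ℝ) / T) ≤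
      ∑ p ∈ W, Real.log p / p := by
    unfold offSum
    rw [Finset.sum_mul]
    refine Finset.sum_le_sum fun p hp => ?_
    rw [Finset.mem_filter, Finset.mem_Icc] at hp
    have h5 : (0 : ℝ) < p := by
      have := hp.2.2.1
      have h6 : 0 < (x : ℝ) / T := by positivity
      linarith
    have h6 : Real.log ((x : ℝ) / T) ≤ Real.log p :=
      Real.log_le_log (by positivity) hp.2.2.1.le
    have h7 : Real.log p / p = 1 / (p : ℝ) * Real.log p := by ring
    rw [h7]
    exact mul_le_mul_of_nonneg_left h6 (by positivity)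
  have hO := offSum_nonneg a b ((x : ℝ) / T) x
  have h5 : offSum a b ((x : ℝ) / T) x * (Real.log x / 2) ≤ Real.log T + 2 * C := by
    have h6 := mul_le_mul_of_nonneg_left hhalf hO
    linarith
  rw [le_div_iff₀ hlx]
  have h6 : Real.log T + 2 * C ≤ (1 + 2 * C / Real.log 2) * Real.log T := by
    have h7 : 2 * C / Real.log 2 * Real.log 2 ≤ 2 * C / Real.log 2 * Real.log T :=
      mul_le_mul_of_nonneg_left hlT (by positivity)
    rw [div_mul_cancel₀ _ hl2.ne'] at h7
    linarith
  linarith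

/-- coverings of Erdős-Rankin type -/
theorem erdos_rankin (hM1 : StM1) (hBVc : StBVc) (hPNT : StPNT) (hBump : StBump) :
    ∃ c C x₀ : ℝ, 0 < c ∧ c ≤ 1 / 4 ∧ 1 ≤ C ∧ 2 ≤ x₀ ∧ ∀ x y : ℕ, x₀ ≤ x →
      ∀ a : ℕ → ℤ, Cov x y a → ∀ b : ℕ, b ≤ y → ∀ z T : ℝ, 2 ≤ z → z ≤ (x : ℝ) ^ c → 2 ≤ T →
      (∀ p : ℕ, p.Prime → z < p → (p : ℝ) ≤ x / T → a p ≡ b [ZMOD (p : ℤ)]) →
      (y : ℝ) ≤ C * x * Real.exp (C * (√(Real.log z * Real.log T) + Real.log T)) := by
  obtain ⟨c, C, x₀, hc, hc4, hC1, hx0, hz⟩ := from_z hBVc hPNT hBump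
  obtain ⟨A, x₁, hA, hx1, hpoly⟩ := poly hBVc hPNT hBump
  obtain ⟨D, hD, hW⟩ := window hM1
  set C' : ℝ := C * (√D + D) + C + 2 * A with hC'
  have hsD : 0 ≤ √D := Real.sqrt_nonneg _
  refine ⟨c, C', max x₀ (max x₁ 4), hc, hc4, by
    have : 0 ≤ C * (√D + D) := by positivity
    linarith, hx0.trans (le_max_left _ _), ?_⟩
  intro x y hx a hcov b hb z T hz2 hzx hT hcls
  have hxx0 : x₀ ≤ (x : ℝ) := (le_max_left _ _).trans hx
  have hxx1 : x₁ ≤ (x : ℝ) := ((le_max_left _ _).trans (le_max_right _ _)).trans hx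
  have hx4 : (4 : ℝ) ≤ x := ((le_max_right _ _).trans (le_max_right _ _)).trans hx
  have hx4' : 4 ≤ x := by exact_mod_cast hx4
  have hxpos : (0 : ℝ) < x := by linarith
  have hTpos : 0 < T := by linarith
  have hlx : 0 < Real.log (x : ℝ) := Real.log_pos (by linarith)
  have hlz : 0 < Real.log z := Real.log_pos (by linarith)
  have hlT : 0 < Real.log T := Real.log_pos (by linarith)
  set R := √(Real.log z * Real.log T) + Real.log T with hR
  have hR0 : 0 ≤ R := by positivity
  have hCD : 0 ≤ C * (√D + D) := by positivity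
  by_cases hTx : T * T ≤ x
  · have h1 := hz x y hxx0 a hcov b hb z hz2 hzx
    have h2 := hW x T hx4' hT hTx a b
    set S := offSum a b z x with hS
    have hS0 : 0 ≤ S := offSum_nonneg _ _ _ _
    have h3 : S ≤ offSum a b ((x : ℝ) / T) x := by
      rw [hS]
      classical
      unfold offSum
      refine Finset.sum_le_sum_of_subset_of_nonneg (fun p hp => ?_) fun p _ _ => by positivity
      simp only [Finset.mem_filter] at hp ⊢
      refine ⟨hp.1, hp.2.1, ?_, hp.2.2.2⟩
      by_contra h4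
      push Not at h4
      exact hp.2.2.2 (hcls p hp.2.1 hp.2.2.1 h4)
    have h4 : S * Real.log x ≤ D * Real.log T := by
      have h5 := mul_le_mul_of_nonneg_right (h3.trans h2) hlx.le
      rwa [div_mul_cancel₀ _ hlx.ne'] at h5
    have h5 : √(S * Real.log x * Real.log z) ≤ √D * √(Real.log z * Real.log T) := by
      rw [← Real.sqrt_mul hD.le]
      refine Real.sqrt_le_sqrt ?_
      have := mul_le_mul_of_nonneg_right h4 hlz.le
      linarith
    have h6 : √(S * Real.log x * Real.log z) + S * Real.log x ≤ (√D + D) * R := by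
      have e1 : 0 ≤ √(Real.log z * Real.log T) := Real.sqrt_nonneg _
      have e2 : (√D + D) * R = √D * √(Real.log z * Real.log T) + √D * Real.log T +
        D * √(Real.log z * Real.log T) + D * Real.log T := by
        rw [hR]
        ring
      rw [e2]
      have e3 : 0 ≤ √D * Real.log T := by positivity
      have e4 : 0 ≤ D * √(Real.log z * Real.log T) := by positivity
      linarith
    have h7 : C * (√(S * Real.log x * Real.log z) + S * Real.log x) ≤ C' * R := by
      have e1 := mul_le_mul_of_nonneg_left h6 (by linarith : (0 : ℝ) ≤ C)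
      have e2 : C * ((√D + D) * R) = (C * (√D + D)) * R := by ring
      have e3 : (C * (√D + D)) * R ≤ C' * R := mul_le_mul_of_nonneg_right (by linarith) hR0
      linarith
    have h8 : C * x ≤ C' * x := mul_le_mul_of_nonneg_right (by linarith) hxpos.le
    refine h1.trans (mul_le_mul h8 (Real.exp_le_exp.2 h7) (Real.exp_pos _).le ?_)
    have : 0 ≤ C' := by linarith
    positivity
  · push Not at hTx
    have h1 := hpoly x y hxx1 a hcov
    have h2 : Real.log x ≤ 2 * Real.log T := by
      have h3 := Real.log_le_log hxpos hTx.le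
      rw [Real.log_mul hTpos.ne' hTpos.ne'] at h3
      linarith
    have h3 : (x : ℝ) ^ A ≤ Real.exp (C' * R) := by
      rw [Real.rpow_def_of_pos hxpos]
      refine Real.exp_le_exp.2 ?_
      have e1 : Real.log x * A ≤ 2 * Real.log T * A := mul_le_mul_of_nonneg_right h2 (by linarith)
      have e2 : Real.log T ≤ R := by
        have := Real.sqrt_nonneg (Real.log z * Real.log T)
        linarith
      have e3 : 2 * A * Real.log T ≤ 2 * A * R := mul_le_mul_of_nonneg_left e2 (by linarith)
      have e4 : 2 * A * R ≤ C' * R := mul_le_mul_of_nonneg_right (by linarith) hR0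
      linarith
    have h4 : 1 ≤ C' * x := by
      have : 1 ≤ C' := by linarith
      nlinarith
    have h5 : Real.exp (C' * R) ≤ C' * x * Real.exp (C' * R) :=
      le_mul_of_one_le_left (Real.exp_pos _).le h4
    exact h1.trans (h3.trans h5)

end Pool.Agent.Helper13.JC
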