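import Pool.Agent.Helper18.TR.Final

/-!
# MP_924f75 (covering an initial interval by residue classes): counting in progressions

`L(h) = b + h p`; prime moduli `s ∤ p`.
-/

set_option autoImplicit false

namespace Pool.Agent.Helper13.JC

open Finset

/-- simultaneous congruences -/
theorem crt (p : ℕ) (b : ℤ) (e : ℕ → ℤ) : ∀ T : Finset ℕ, (∀ s ∈ T, s.Prime ∧ ¬ s ∣ p) →
    ∃ h0 : ℤ, ∀ s ∈ T, (s : ℤ) ∣ b + h0 * p - e s := by
  classical
  intro T
  induction T using Finset.induction_on with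
  | empty =>
    intro _
    exact ⟨0, fun s hs => absurd hs (Finset.notMem_empty s)⟩
  | insert s T hs ih =>
    intro hT
    obtain ⟨h1, hh1⟩ := ih fun t ht => hT t (Finset.mem_insert_of_mem ht)
    obtain ⟨hsp, hsd⟩ := hT s (Finset.mem_insert_self s T)
    have hcop : IsCoprime (s : ℤ) ((∏ t ∈ T, (t : ℤ)) * p) := by
      have h2 : IsCoprime (s : ℤ) (∏ t ∈ T, (t : ℤ)) := by
        refine IsCoprime.prod_right fun t ht => ?_
        have ht' := hT t (Finset.mem_insert_of_mem ht)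
        rw [Nat.isCoprime_iff_coprime, Nat.coprime_primes hsp ht'.1]
        rintro rfl
        exact hs ht
      have h3 : IsCoprime (s : ℤ) (p : ℤ) := by
        rw [Nat.isCoprime_iff_coprime]
        exact (Nat.Prime.coprime_iff_not_dvd hsp).2 hsd
      exact h2.mul_right h3
    obtain ⟨u, v, huv⟩ := hcop
    refine ⟨h1 - v * (b + h1 * p - e s) * ∏ t ∈ T, (t : ℤ), ?_⟩
    intro t ht
    rcases Finset.mem_insert.1 ht with rfl | ht
    · refine ⟨u * (b + h1 * p - e t), ?_⟩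
      linear_combination (b + h1 * p - e t) * (-huv)
    · obtain ⟨k, hk⟩ := hh1 t ht
      have h4 : (t : ℤ) ∣ ∏ t ∈ T, (t : ℤ) := Finset.dvd_prod_of_mem _ ht
      obtain ⟨l, hl⟩ := h4
      refine ⟨k - v * (b + h1 * p - e s) * l * p, ?_⟩
      rw [hl]
      linear_combination hk

/-- divisibility by all primes of a set -/
theorem dvd_all {T : Finset ℕ} (hT : ∀ s ∈ T, s.Prime) (m : ℤ) :
    (∀ s ∈ T, (s : ℤ) ∣ m) ↔ ((∏ s ∈ T, s : ℕ) : ℤ) ∣ m := by
  classical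
  constructor
  · intro h
    rw [Nat.cast_prod]
    refine Finset.prod_dvd_of_coprime ?_ h
    intro s hs t ht hst
    show IsCoprime (s : ℤ) (t : ℤ)
    rw [Nat.isCoprime_iff_coprime]
    exact (Nat.coprime_primes (hT s hs) (hT t ht)).2 hst
  · intro h s hs
    refine dvd_trans ?_ h
    exact_mod_cast Finset.dvd_prod_of_mem (fun s => s) hs

theorem prod_ge_one {T : Finset ℕ} (hT : ∀ s ∈ T, s.Prime) : 1 ≤ ∏ s ∈ T, s :=
  Nat.one_le_iff_ne_zero.2 (Finset.prod_ne_zero_iff.2 fun s hs => (hT s hs).ne_zero)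

/-- the number of `h < N` in a residue class modulo `D` -/
theorem card_class (N D : ℕ) (hD : 1 ≤ D) (h0 : ℤ) :
    |((((range N).filter fun h : ℕ => (D : ℤ) ∣ (h : ℤ) - h0).card : ℕ) : ℝ) - N / D| ≤ 1 := by
  have hD0 : (0 : ℤ) < D := by exact_mod_cast hD
  have h1 : ((range N).filter fun h : ℕ => (D : ℤ) ∣ (h : ℤ) - h0).card =
      ((Ico (0 : ℤ) N).filter fun x => x ≡ h0 [ZMOD (D : ℤ)]).card := by
    refine Finset.card_bij (fun h _ => (h : ℤ)) ?_ ?_ ?_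
    · intro h hh
      rw [Finset.mem_filter, Finset.mem_range] at hh
      rw [Finset.mem_filter, Finset.mem_Ico]
      refine ⟨⟨by positivity, by exact_mod_cast hh.1⟩, ?_⟩
      exact (Int.modEq_iff_dvd.2 hh.2).symm
    · intro a _ b _ h
      exact_mod_cast h
    · intro x hx
      rw [Finset.mem_filter, Finset.mem_Ico] at hx
      refine ⟨x.toNat, ?_, by omega⟩
      rw [Finset.mem_filter, Finset.mem_range]
      have h2 : ((x.toNat : ℕ) : ℤ) = x := by omega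
      refine ⟨by omega, ?_⟩
      rw [h2]
      exact Int.modEq_iff_dvd.1 hx.2.symm
  rw [h1]
  have h2 := Int.Ico_filter_modEq_card (0 : ℤ) (N : ℤ) hD0 h0
  have h3 : ((((Ico (0 : ℤ) N).filter fun x => x ≡ h0 [ZMOD (D : ℤ)]).card : ℕ) : ℝ) =
      ((max (⌈((N : ℤ) - h0 : ℚ) / (D : ℤ)⌉ - ⌈((0 : ℤ) - h0 : ℚ) / (D : ℤ)⌉) 0 : ℤ) : ℝ) := by
    rw [← h2]
    push_cast
    rfl
  rw [h3]
  set u : ℚ := ((N : ℤ) - h0 : ℚ) / (D : ℤ) with hu
  set v : ℚ := ((0 : ℤ) - h0 : ℚ) / (D : ℤ) with hv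
  have hDq : (0 : ℚ) < (D : ℤ) := by exact_mod_cast hD0
  have huv : u - v = N / D := by
    rw [hu, hv]
    push_cast
    field_simp
    ring
  have huv' : (u : ℝ) - v = N / D := by
    have := congrArg (fun q : ℚ => (q : ℝ)) huv
    push_cast at this
    exact this
  have hmax : ((max (⌈u⌉ - ⌈v⌉) 0 : ℤ) : ℝ) = (⌈u⌉ : ℝ) - ⌈v⌉ := by
    have h4 : v ≤ u := by
      have : (0 : ℚ) ≤ N / D := by positivity
      linarith
    have h5 : ⌈v⌉ ≤ ⌈u⌉ := Int.ceil_le_ceil h4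
    rw [max_eq_left (by omega)]
    push_cast
    rfl
  rw [hmax, ← huv', abs_le]
  have a1 : ((⌈u⌉ : ℤ) : ℝ) < u + 1 := by exact_mod_cast Int.ceil_lt_add_one u
  have a2 : (u : ℝ) ≤ ((⌈u⌉ : ℤ) : ℝ) := by exact_mod_cast Int.le_ceil u
  have a3 : ((⌈v⌉ : ℤ) : ℝ) < v + 1 := by exact_mod_cast Int.ceil_lt_add_one v
  have a4 : (v : ℝ) ≤ ((⌈v⌉ : ℤ) : ℝ) := by exact_mod_cast Int.le_ceil v
  constructor <;> linarith

/-- the number of `h < N` with prescribed residues of `b + h p` -/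
theorem card_res (N p : ℕ) (b : ℤ) (e : ℕ → ℤ) (T : Finset ℕ) (hT : ∀ s ∈ T, s.Prime ∧ ¬ s ∣ p) :
    |((((range N).filter fun h : ℕ => ∀ s ∈ T, (s : ℤ) ∣ b + h * p - e s).card : ℕ) : ℝ) -
      N / ((∏ s ∈ T, s : ℕ) : ℝ)| ≤ 1 := by
  classical
  obtain ⟨h0, hh0⟩ := crt p b e T hT
  have h1 : ∀ h : ℕ, (∀ s ∈ T, (s : ℤ) ∣ b + h * p - e s) ↔ ((∏ s ∈ T, s : ℕ) : ℤ) ∣ (h : ℤ) - h0 := by
    intro h
    rw [← dvd_all fun s hs => (hT s hs).1]
    refine forall₂_congr fun s hs => ?_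
    have h2 := hh0 s hs
    have h3 : b + (h : ℤ) * p - e s = (b + h0 * p - e s) + ((h : ℤ) - h0) * p := by ring
    rw [h3, dvd_add_right h2]
    constructor
    · intro h4
      have hsp : Prime (s : ℤ) := Nat.prime_iff_prime_int.1 (hT s hs).1
      rcases hsp.dvd_or_dvd h4 with h5 | h5
      · exact h5
      · exact absurd (by exact_mod_cast h5) (hT s hs).2
    · intro h4
      exact h4.mul_right _
  have h2 : ((range N).filter fun h : ℕ => ∀ s ∈ T, (s : ℤ) ∣ b + h * p - e s) =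
      (range N).filter fun h : ℕ => ((∏ s ∈ T, s : ℕ) : ℤ) ∣ (h : ℤ) - h0 :=
    Finset.filter_congr fun h _ => h1 h
  rw [h2]
  exact card_class N _ (prod_ge_one fun s hs => (hT s hs).1) h0

end Pool.Agent.Helper13.JC
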