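import Pool.Agent.Helper13.JC.C3
import Pool.Agent.Helper60.GP.All

/-!
# MP_924f75: coverings and a common class, final form
-/

set_option autoImplicit false

namespace Pool.Agent.Helper13.JC

open Finset Pool.Agent.Helper60.GP

/-- the main inequality with a free parameter `t` -/
theorem main_t (hBVc : StBVc) (hPNT : StPNT) (hBump : StBump) :
    ∃ c C x₀ : ℝ, 0 < c ∧ c ≤ 1 / 4 ∧ 0 < C ∧ ∀ x y : ℕ, x₀ ≤ x →
      ∀ a : ℕ → ℤ, Cov x y a → ∀ b : ℕ, b ≤ y → ∀ t : ℝ, 2 ≤ t →
      (y : ℝ) ≤ x * Real.exp (C * (1 + Real.log t + Real.exp (offSum a b t ((x : ℝ) ^ c)) *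
        offSum a b ((x : ℝ) ^ c) x * Real.log x)) := by
  obtain ⟨c, δ, x₀, hc, hc4, hδ, hx0, hmain⟩ := centre hBVc hPNT hBump
  obtain ⟨A, x₁, hA, hx1, hpoly⟩ := poly hBVc hPNT hBump
  set C : ℝ := 64 + A / δ with hC
  have hAδ : 0 < A / δ := by positivity
  have h1δ : 1 / δ ≤ A / δ := div_le_div_of_nonneg_right (by linarith) hδ.le
  refine ⟨c, C, max x₀ (max x₁ 64), hc, hc4, by positivity, ?_⟩
  intro x y hx a hcov b hb t ht
  have hxx0 : x₀ ≤ (x : ℝ) := (le_max_left _ _).trans hx
  have hxx1 : x₁ ≤ (x : ℝ) := ((le_max_left _ _).trans (le_max_right _ _)).trans hx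
  have hx64 : (64 : ℝ) ≤ x := ((le_max_right _ _).trans (le_max_right _ _)).trans hx
  have hx64' : 64 ≤ x := by exact_mod_cast hx64
  have hxpos : (0 : ℝ) < x := by linarith
  have hlx : 0 < Real.log (x : ℝ) := Real.log_pos (by linarith)
  have hlt : 0 < Real.log t := Real.log_pos (by linarith)
  set G := offSum a b t ((x : ℝ) ^ c) with hG
  set S := offSum a b ((x : ℝ) ^ c) x with hS
  have hS0 : 0 ≤ S := offSum_nonneg _ _ _ _
  set E := Real.exp G * S * Real.log x with hE
  have hE0 : 0 ≤ E := by positivity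
  -- enough: log (y/x) ≤ C (1 + log t + E)
  have hfin : ∀ L : ℝ, L ≤ C * (1 + Real.log t + E) → (y : ℝ) ≤ x * Real.exp L →
      (y : ℝ) ≤ x * Real.exp (C * (1 + Real.log t + E)) := by
    intro L h1 h2
    exact h2.trans (mul_le_mul_of_nonneg_left (Real.exp_le_exp.2 h1) hxpos.le)
  have hlarge : ∀ K L : ℝ, K ≤ A / δ → 0 ≤ K → (L ≤ K * Real.log t ∨ L ≤ K * E) →
      L ≤ C * (1 + Real.log t + E) := by
    intro K L hK hK0 h
    have e0 : K * (1 + Real.log t + E) ≤ C * (1 + Real.log t + E) :=
      mul_le_mul_of_nonneg_right (by linarith) (by positivity)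
    rcases h with h | h
    · have e1 : K * Real.log t ≤ K * (1 + Real.log t + E) :=
        mul_le_mul_of_nonneg_left (by linarith) hK0
      linarith
    · have e1 : K * E ≤ K * (1 + Real.log t + E) :=
        mul_le_mul_of_nonneg_left (by linarith) hK0
      linarith
  by_cases hy64 : 64 * x ≤ y
  swap
  · push Not at hy64
    have h1 : (y : ℝ) ≤ 64 * x := by exact_mod_cast hy64.le
    refine hfin (Real.log 64) ?_ ?_
    · have h2 := Real.log_le_sub_one_of_pos (show (0 : ℝ) < 64 by norm_num)
      have h3 : (64 : ℝ) * 1 ≤ C * (1 + Real.log t + E) :=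
        mul_le_mul (by linarith) (by linarith) (by norm_num) (by linarith)
      linarith
    · rw [Real.exp_log (by norm_num)]
      linarith
  -- the exponential of the sum over small primes
  have hexp : ∀ u : ℝ, t < u → Real.exp (-G) ≤ Real.exp (-offSum a b u ((x : ℝ) ^ c)) := by
    intro u hu
    refine Real.exp_le_exp.2 (neg_le_neg ?_)
    exact offSum_anti a b hu.le
  have hGG : Real.exp (-G) * Real.exp G = 1 := by
    rw [← Real.exp_add, neg_add_cancel, Real.exp_zero]
  by_cases hyx : y ≤ x ^ 2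
  · have h1 := hmain x y hxx0 hy64 hyx a hcov b hb
    set Y : ℝ := (y : ℝ) / x with hY
    have hY64 : 64 ≤ Y := by
      rw [hY, le_div_iff₀ hxpos]
      exact_mod_cast hy64
    have hlY : 0 < Real.log Y := Real.log_pos (by linarith)
    have hyY : (y : ℝ) = x * Real.exp (Real.log Y) := by
      rw [Real.exp_log (by linarith), hY]
      field_simp
    refine hfin (Real.log Y) (hlarge (1 / δ) _ h1δ (by positivity) ?_) hyY.le
    rcases le_or_gt (Y ^ δ) t with hcase | hcase
    · left
      have h2 := Real.log_le_log (by positivity) hcase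
      rw [Real.log_rpow (by linarith)] at h2
      rw [one_div, ← div_eq_inv_mul, le_div_iff₀ hδ]
      linarith
    · right
      have h2 := hexp _ hcase
      have h3 : δ * (Real.log Y / Real.log x) * Real.exp (-G) ≤ S :=
        (mul_le_mul_of_nonneg_left h2 (by positivity)).trans h1
      have h4 := mul_le_mul_of_nonneg_right h3 (by positivity : 0 ≤ Real.exp G * Real.log x)
      have h5 : δ * (Real.log Y / Real.log x) * Real.exp (-G) * (Real.exp G * Real.log x) =
          δ * Real.log Y * (Real.exp (-G) * Real.exp G) := by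
        field_simp
      rw [h5, hGG, mul_one] at h4
      rw [one_div, ← div_eq_inv_mul, le_div_iff₀ hδ, hE]
      linarith
  · push Not at hyx
    obtain ⟨a', b', hb', hcov', hoff⟩ := cut hcov b hb hyx.le
    have h64 : 64 * x ≤ x ^ 2 := by nlinarith
    have h1 := hmain x (x ^ 2) hxx0 h64 le_rfl a' hcov' b' hb'
    rw [hoff, hoff] at h1
    have hYx : ((x ^ 2 : ℕ) : ℝ) / x = x := by
      push_cast
      field_simp
    rw [hYx, div_self hlx.ne', mul_one] at h1
    have h8 := hpoly x y hxx1 a hcov
    refine hfin (A * Real.log x) (hlarge (A / δ) _ le_rfl hAδ.le ?_) ?_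
    · rcases le_or_gt ((x : ℝ) ^ δ) t with hcase | hcase
      · left
        have h2 := Real.log_le_log (by positivity) hcase
        rw [Real.log_rpow hxpos] at h2
        rw [div_mul_eq_mul_div, le_div_iff₀ hδ]
        nlinarith
      · right
        have h2 := hexp _ hcase
        have h3 : δ * Real.exp (-G) ≤ S := (mul_le_mul_of_nonneg_left h2 hδ.le).trans h1
        have h4 := mul_le_mul_of_nonneg_right h3 (by positivity : 0 ≤ Real.exp G * Real.log x)
        have h5 : δ * Real.exp (-G) * (Real.exp G * Real.log x) =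
            δ * Real.log x * (Real.exp (-G) * Real.exp G) := by ring
        rw [h5, hGG, mul_one] at h4
        rw [div_mul_eq_mul_div, le_div_iff₀ hδ, hE]
        nlinarith
    · have e1 : Real.exp (A * Real.log x) = (x : ℝ) ^ A := by
        rw [Real.rpow_def_of_pos hxpos, mul_comm]
      rw [e1]
      have e2 : 0 ≤ (x : ℝ) ^ A := by positivity
      nlinarith

end Pool.Agent.Helper13.JC
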