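import Pool.Agent.Helper13.JC.Cnt

/-!
# MP_924f75: upper bound sieve in a progression (dimension at most two)
-/

set_option autoImplicit false

namespace Pool.Agent.Helper13.JC

open Finset

/-- sieving primes -/
def Sw (w : ℕ) : Finset ℕ := (Icc 5 w).filter Nat.Prime

/-- counting with one or two classes -/
theorem card_two (N p : ℕ) (b : ℤ) (c : ℕ → ℤ) (Q T : Finset ℕ)
    (hT : ∀ s ∈ T, s.Prime ∧ ¬ s ∣ p) (hc : ∀ s ∈ Q, ¬ (s : ℤ) ∣ c s) :
    |((((range N).filter fun h : ℕ => ∀ s ∈ T, (s : ℤ) ∣ b + h * p ∨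
        (s ∈ Q ∧ (s : ℤ) ∣ b + h * p - c s)).card : ℕ) : ℝ) -
      N * ∏ s ∈ T, ((if s ∈ Q then 2 else 1) / (s : ℝ))| ≤ 2 ^ T.card := by
  classical
  have h1 : ((range N).filter fun h : ℕ => ∀ s ∈ T, (s : ℤ) ∣ b + h * p ∨
        (s ∈ Q ∧ (s : ℤ) ∣ b + h * p - c s)).card =
      ∑ U ∈ (T.filter (· ∈ Q)).powerset, ((range N).filter fun h : ℕ => ∀ s ∈ T,
        (s : ℤ) ∣ b + h * p - (if s ∈ U then c s else 0)).card := by
    rw [Finset.card_eq_sum_card_fiberwise (t := (T.filter (· ∈ Q)).powerset)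
      (f := fun h : ℕ => T.filter fun s => s ∈ Q ∧ (s : ℤ) ∣ b + h * p - c s)]
    · refine Finset.sum_congr rfl fun U hU => ?_
      rw [Finset.mem_powerset] at hU
      congr 1
      ext h
      simp only [Finset.mem_filter, Finset.mem_range]
      constructor
      · rintro ⟨⟨h2, h3⟩, h4⟩
        refine ⟨h2, fun s hs => ?_⟩
        split_ifs with h5
        · rw [← h4, Finset.mem_filter] at h5
          exact h5.2.2
        · rcases h3 s hs with h6 | h6
          · simpa using h6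
          · exact absurd (by rw [← h4, Finset.mem_filter]; exact ⟨hs, h6⟩) h5
      · rintro ⟨h2, h3⟩
        refine ⟨⟨h2, fun s hs => ?_⟩, ?_⟩
        · have h4 := h3 s hs
          split_ifs at h4 with h5
          · exact Or.inr ⟨(Finset.mem_filter.1 (hU h5)).2, h4⟩
          · left
            simpa using h4
        · ext s
          rw [Finset.mem_filter]
          constructor
          · rintro ⟨h4, h5, h6⟩
            by_contra h7
            have h8 := h3 s h4
            rw [if_neg h7, sub_zero] at h8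
            have h9 : (s : ℤ) ∣ c s := by
              have := dvd_sub h8 h6
              simpa using this
            exact hc s h5 h9
          · intro h4
            have h5 := Finset.mem_filter.1 (hU h4)
            have h6 := h3 s h5.1
            rw [if_pos h4] at h6
            exact ⟨h5.1, h5.2, h6⟩
    · intro h _
      rw [Finset.mem_coe, Finset.mem_powerset]
      intro s hs
      rw [Finset.mem_filter] at hs ⊢
      exact ⟨hs.1, hs.2.1⟩
  have h2 : (N : ℝ) * ∏ s ∈ T, ((if s ∈ Q then 2 else 1) / (s : ℝ)) =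
      ∑ U ∈ (T.filter (· ∈ Q)).powerset, (N : ℝ) / ((∏ s ∈ T, s : ℕ) : ℝ) := by
    rw [Finset.sum_const, Finset.card_powerset, nsmul_eq_mul, Finset.prod_div_distrib,
      Finset.prod_ite, Finset.prod_const, Finset.prod_const_one]
    push_cast
    ring
  rw [h1, h2]
  push_cast
  rw [← Finset.sum_sub_distrib]
  refine (Finset.abs_sum_le_sum_abs _ _).trans ?_
  have h3 : ∀ U ∈ (T.filter (· ∈ Q)).powerset,
      |(((range N).filter fun h : ℕ => ∀ s ∈ T,
        (s : ℤ) ∣ b + h * p - (if s ∈ U then c s else 0)).card : ℝ) -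
        N / ∏ s ∈ T, (s : ℝ)| ≤ 1 := by
    intro U _
    have := card_res N p b (fun s => if s ∈ U then c s else 0) T hT
    push_cast at this
    exact this
  refine (Finset.sum_le_sum h3).trans ?_
  rw [Finset.sum_const, Finset.card_powerset, nsmul_eq_mul, mul_one]
  push_cast
  exact pow_le_pow_right₀ (by norm_num) (Finset.card_le_card (Finset.filter_subset _ _))

/-- crude lower bound -/
theorem prod_crude (w : ℕ) (hw : 2 ≤ w) :
    1 / (w : ℝ) ^ 2 ≤ ∏ s ∈ Sw w, (1 - 2 / (s : ℝ)) := by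
  have h1 : ∀ n : ℕ, 1 / (((n : ℝ) + 1) * (n + 2)) ≤ ∏ s ∈ Icc 5 (n + 2), (1 - 2 / (s : ℝ)) := by
    intro n
    induction n with
    | zero =>
      rw [Finset.Icc_eq_empty (by norm_num), Finset.prod_empty]
      norm_num
    | succ n ih =>
      by_cases hn : n + 1 + 2 < 5
      · rw [Finset.Icc_eq_empty (by omega), Finset.prod_empty]
        rw [div_le_one (by positivity)]
        have : (0 : ℝ) ≤ n := Nat.cast_nonneg n
        push_cast
        nlinarith
      · push Not at hn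
        have h2 : Icc 5 (n + 1 + 2) = insert (n + 1 + 2) (Icc 5 (n + 2)) := by
          ext k
          simp only [Finset.mem_Icc, Finset.mem_insert]
          omega
        rw [h2, Finset.prod_insert (by simp)]
        have h3 : (0 : ℝ) < (n : ℝ) + 2 := by positivity
        have h4 : (0 : ℝ) ≤ 1 - 2 / ((n + 1 + 2 : ℕ) : ℝ) := by
          rw [sub_nonneg, div_le_one (by positivity)]
          push_cast
          linarith [show (0 : ℝ) ≤ n from Nat.cast_nonneg n]
        refine le_trans ?_ (mul_le_mul_of_nonneg_left ih h4)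
        push_cast
        refine le_of_eq ?_
        have h5 : (n : ℝ) + 1 ≠ 0 := by positivity
        have h6 : (n : ℝ) + 1 + 2 ≠ 0 := by positivity
        have h7 : (n : ℝ) + 2 ≠ 0 := by positivity
        have h8 : (n : ℝ) + 1 + 1 ≠ 0 := by positivity
        field_simp
        ring
  obtain ⟨n, rfl⟩ : ∃ n, w = n + 2 := ⟨w - 2, by omega⟩
  have h9 : 1 / (((n + 2 : ℕ) : ℝ)) ^ 2 ≤ 1 / (((n : ℝ) + 1) * (n + 2)) := by
    refine one_div_le_one_div_of_le (by positivity) ?_
    push_cast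
    nlinarith [show (0 : ℝ) ≤ n from Nat.cast_nonneg n]
  refine h9.trans ((h1 n).trans ?_)
  refine Finset.prod_le_prod_of_subset_of_le_one (Finset.filter_subset _ _) ?_ ?_
  · intro s hs
    rw [Finset.mem_Icc] at hs
    have : (2 : ℝ) ≤ s := by exact_mod_cast (by omega : 2 ≤ s)
    rw [sub_nonneg, div_le_one (by linarith)]
    exact this
  · intro s hs _
    rw [Finset.mem_Icc] at hs
    have : (0 : ℝ) < s := by exact_mod_cast (by omega : 0 < s)
    have h3 : 0 < 2 / (s : ℝ) := by positivity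
    linarith

/-- upper bound: at most two classes for every prime -/
theorem upper : ∃ B : ℕ, ∀ w : ℕ, 1 ≤ w → ∀ N p : ℕ, w ^ B ≤ N →
    (∀ s : ℕ, s.Prime → s ≤ w → ¬ s ∣ p) → ∀ (b : ℤ) (c : ℕ → ℤ) (Q : Finset ℕ),
    (∀ s ∈ Q, ¬ (s : ℤ) ∣ c s) →
    (((range N).filter fun h : ℕ => ∀ s ∈ Sw w, ¬ ((s : ℤ) ∣ b + h * p ∨
      (s ∈ Q ∧ (s : ℤ) ∣ b + h * p - c s))).card : ℝ) ≤
      3 * N * ((∏ s ∈ Sw w, (1 - 1 / (s : ℝ))) * ∏ s ∈ (Sw w).filter (· ∈ Q), (1 - 1 / (s : ℝ))) := by
  classical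
  obtain ⟨B, hB⟩ := Pool.Agent.Helper18.TR.fl 2 1 (by norm_num) (by norm_num)
  refine ⟨2 * B + 2, fun w hw N p hN hp b c Q hc => ?_⟩
  rcases hw.lt_or_eq with hw | hw
  swap
  · subst hw
    have h1 : Sw 1 = ∅ := by
      unfold Sw
      rw [Finset.Icc_eq_empty (by norm_num), Finset.filter_empty]
    rw [h1]
    simp only [Finset.notMem_empty, false_implies, implies_true, Finset.filter_true,
      Finset.prod_empty, Finset.filter_empty, Finset.card_range]
    have : (0 : ℝ) ≤ N := Nat.cast_nonneg N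
    linarith
  have hw2 : 2 ≤ w := hw
  set g : ℕ → ℝ := fun s => (if s ∈ Q then 2 else 1) / (s : ℝ) with hg
  have hS : ∀ s ∈ Sw w, s.Prime ∧ 5 ≤ s ∧ s ≤ w := fun s hs => by
    unfold Sw at hs
    rw [Finset.mem_filter, Finset.mem_Icc] at hs
    exact ⟨hs.2, hs.1⟩
  have hgb : ∀ s ∈ Sw w, 0 ≤ g s ∧ g s ≤ 2 / s ∧ g s ≤ 1 / 2 := by
    intro s hs
    obtain ⟨h1, h2, h3⟩ := hS s hs
    have h4 : (5 : ℝ) ≤ s := by exact_mod_cast h2
    have h5 : g s ≤ 2 / s := by
      rw [hg]
      dsimp only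
      gcongr
      split_ifs <;> norm_num
    refine ⟨?_, h5, h5.trans ?_⟩
    · rw [hg]
      dsimp only
      split_ifs <;> positivity
    · rw [div_le_div_iff₀ (by linarith) (by norm_num)]
      linarith
  have h1 := hB w hw2 (Sw w) (fun s hs => ⟨(hS s hs).1, (hS s hs).2.2⟩) g hgb ℕ (range N)
    (fun s h => (s : ℤ) ∣ b + h * p ∨ (s ∈ Q ∧ (s : ℤ) ∣ b + h * p - c s)) N ((w : ℝ) ^ B)
    (Nat.cast_nonneg N) (by positivity) (by
      intro T hT hTB
      refine (card_two N p b c Q T (fun s hs => ⟨(hS s (hT hs)).1,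
        hp s (hS s (hT hs)).1 (hS s (hT hs)).2.2⟩) hc).trans ?_
      have h2 : (2 : ℝ) ^ T.card ≤ ((∏ s ∈ T, s : ℕ) : ℝ) := by
        rw [← Finset.prod_const]
        push_cast
        refine Finset.prod_le_prod (fun _ _ => by norm_num) fun s hs => ?_
        exact_mod_cast (by have := (hS s (hT hs)).2.1; omega : 2 ≤ s)
      refine h2.trans ?_
      exact_mod_cast hTB)
  have h2 := (abs_le.1 h1).2
  -- products
  have h3 : (1 : ℝ) / (w : ℝ) ^ 2 ≤ ∏ s ∈ Sw w, (1 - g s) := by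
    refine (prod_crude w hw2).trans (Finset.prod_le_prod (fun s hs => ?_) fun s hs => ?_)
    · have : (5 : ℝ) ≤ s := by exact_mod_cast (hS s hs).2.1
      rw [sub_nonneg, div_le_one (by linarith)]
      linarith
    · have := (hgb s hs).2.1
      linarith
  have h4 : ∏ s ∈ Sw w, (1 - g s) ≤ (∏ s ∈ Sw w, (1 - 1 / (s : ℝ))) *
      ∏ s ∈ (Sw w).filter (· ∈ Q), (1 - 1 / (s : ℝ)) := by
    rw [Finset.prod_filter, ← Finset.prod_mul_distrib]
    refine Finset.prod_le_prod (fun s hs => ?_) fun s hs => ?_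
    · have := (hgb s hs).2.2
      linarith
    · rw [hg]
      dsimp only
      split_ifs
      · have : (0 : ℝ) ≤ 1 / (s : ℝ) * (1 / s) := by positivity
        have e : (1 - 1 / (s : ℝ)) * (1 - 1 / s) = 1 - 2 / s + 1 / (s : ℝ) * (1 / s) := by ring
        rw [e]
        linarith
      · rw [mul_one]
  set V := ∏ s ∈ Sw w, (1 - g s) with hV
  have hwB : ((w : ℝ) ^ B * (w : ℝ) ^ B) ≤ N * V := by
    have h5 : (w : ℝ) ^ (2 * B + 2) ≤ N := by exact_mod_cast hN
    have h6 : (0 : ℝ) < w := by exact_mod_cast (by omega : 0 < w)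
    have h7 : (w : ℝ) ^ B * (w : ℝ) ^ B = (w : ℝ) ^ (2 * B + 2) * (1 / (w : ℝ) ^ 2) := by
      rw [pow_add, ← pow_add]
      field_simp
      ring
    rw [h7]
    exact mul_le_mul h5 h3 (by positivity) (Nat.cast_nonneg N)
  have h8 : (N : ℝ) * V ≤ N * ((∏ s ∈ Sw w, (1 - 1 / (s : ℝ))) *
      ∏ s ∈ (Sw w).filter (· ∈ Q), (1 - 1 / (s : ℝ))) :=
    mul_le_mul_of_nonneg_left h4 (Nat.cast_nonneg N)
  have h9 : (((range N).filter fun h : ℕ => ∀ s ∈ Sw w, ¬ ((s : ℤ) ∣ b + h * p ∨
      (s ∈ Q ∧ (s : ℤ) ∣ b + h * p - c s))).card : ℝ) ≤ 3 * (N * V) := by linarith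
  linarith

end Pool.Agent.Helper13.JC
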