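import Pool.Agent.Helper15.AB.M_MT
import Pool.Agent.Helper13.JC.UB

/-!
# MP_924f75: products over primes
-/

set_option autoImplicit false

namespace Pool.Agent.Helper13.JC

open Finset

theorem one_sub_ge_exp {u : ℝ} (h0 : 0 ≤ u) (h1 : u ≤ 1 / 2) :
    Real.exp (-(u + u ^ 2)) ≤ 1 - u := by
  have h2 : 0 ≤ u + u ^ 2 := by positivity
  have h3 := Real.quadratic_le_exp_of_nonneg h2
  rw [Real.exp_neg, inv_le_comm₀ (Real.exp_pos _) (by linarith)]
  refine le_trans ?_ h3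
  rw [inv_le_iff_one_le_mul₀ (by linarith)]
  have h4 : 0 ≤ u ^ 2 * (1 - u - u ^ 2 - u ^ 3) := by
    refine mul_nonneg (by positivity) ?_
    have h5 : u ^ 2 ≤ 1 / 4 := by nlinarith
    have h6 : u ^ 3 ≤ 1 / 8 := by nlinarith
    linarith
  nlinarith

theorem one_sub_inv_ge {s : ℕ} (hs : 3 ≤ s) :
    Real.exp (-(1 / (s : ℝ) + 5 / (s : ℝ) ^ 2)) ≤ 1 - 1 / ((s : ℝ) - 1) := by
  have h1 : (3 : ℝ) ≤ s := by exact_mod_cast hs
  have h2 : (0 : ℝ) < (s : ℝ) - 1 := by linarith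
  have h3 : 1 / ((s : ℝ) - 1) ≤ 1 / 2 := by
    rw [div_le_div_iff₀ h2 (by norm_num)]
    linarith
  refine le_trans (Real.exp_le_exp.2 ?_) (one_sub_ge_exp (by positivity) h3)
  rw [neg_le_neg_iff]
  have h4 : 1 / ((s : ℝ) - 1) + (1 / ((s : ℝ) - 1)) ^ 2 = s / ((s : ℝ) - 1) ^ 2 := by
    field_simp
    ring
  have h5 : 1 / (s : ℝ) + 5 / (s : ℝ) ^ 2 = (s + 5) / (s : ℝ) ^ 2 := by
    field_simp
  rw [h4, h5, div_le_div_iff₀ (by positivity) (by positivity)]
  nlinarith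

theorem sum_inv_sq_le {Q : Finset ℕ} (hQ : ∀ s ∈ Q, 2 ≤ s) :
    ∑ s ∈ Q, 1 / (s : ℝ) ^ 2 ≤ 1 := by
  obtain ⟨M, hM⟩ : ∃ M, Q ⊆ Ioo 1 M := by
    refine ⟨Q.sup id + 1, fun s hs => ?_⟩
    rw [Finset.mem_Ioo]
    have h1 : s ≤ Q.sup id := Finset.le_sup (f := id) hs
    have := hQ s hs
    omega
  have h1 : ∑ s ∈ Q, 1 / (s : ℝ) ^ 2 ≤ ∑ s ∈ Ioo 1 M, ((s : ℝ) ^ 2)⁻¹ := by
    refine (Finset.sum_le_sum_of_subset_of_nonneg hM fun s _ _ => by positivity).trans ?_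
    refine Finset.sum_le_sum fun s _ => ?_
    rw [one_div]
  refine h1.trans ((sum_Ioo_inv_sq_le 1 M).trans ?_)
  norm_num

/-- lower bound for the sifting product over primes `s` with density `1 / (s - 1)` -/
theorem prod_ge {Q : Finset ℕ} (hQ : ∀ s ∈ Q, 3 ≤ s) :
    Real.exp (-(∑ s ∈ Q, 1 / (s : ℝ)) - 5) ≤ ∏ s ∈ Q, (1 - 1 / ((s : ℝ) - 1)) := by
  have h1 : ∏ s ∈ Q, Real.exp (-(1 / (s : ℝ) + 5 / (s : ℝ) ^ 2)) ≤
      ∏ s ∈ Q, (1 - 1 / ((s : ℝ) - 1)) :=
    Finset.prod_le_prod (fun s _ => (Real.exp_pos _).le) fun s hs => one_sub_inv_ge (hQ s hs)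
  refine le_trans ?_ h1
  rw [← Real.exp_sum]
  refine Real.exp_le_exp.2 ?_
  rw [Finset.sum_neg_distrib, Finset.sum_add_distrib]
  have h2 : ∑ s ∈ Q, 5 / (s : ℝ) ^ 2 = 5 * ∑ s ∈ Q, 1 / (s : ℝ) ^ 2 := by
    rw [Finset.mul_sum]
    refine Finset.sum_congr rfl fun s _ => ?_
    ring
  have h3 := sum_inv_sq_le (Q := Q) fun s hs => by have := hQ s hs; omega
  rw [h2]
  linarith

theorem prod_le {Q : Finset ℕ} (hQ : ∀ s ∈ Q, 1 ≤ s) :
    ∏ s ∈ Q, (1 - 1 / (s : ℝ)) ≤ Real.exp (-(∑ s ∈ Q, 1 / (s : ℝ))) := by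
  rw [← Finset.sum_neg_distrib, Real.exp_sum]
  refine Finset.prod_le_prod (fun s hs => ?_) fun s hs => ?_
  · have : (1 : ℝ) ≤ s := by exact_mod_cast hQ s hs
    rw [sub_nonneg, div_le_one (by linarith)]
    exact this
  · have := Real.add_one_le_exp (-(1 / (s : ℝ)))
    linarith

/-- Mertens, natural numbers, all `w ≥ 2` -/
theorem mert : ∃ C : ℝ, 0 ≤ C ∧ ∀ w : ℕ, 2 ≤ w →
    |∑ s ∈ (Icc 1 w).filter Nat.Prime, 1 / (s : ℝ) - Real.log (Real.log w)| ≤ C := by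
  obtain ⟨C, hC, h⟩ := Pool.Agent.Helper15.AB.hMT
  refine ⟨max C |1 / 2 - Real.log (Real.log 2)|, hC.le.trans (le_max_left _ _), fun w hw => ?_⟩
  rcases hw.lt_or_eq with hw | hw
  · have h1 := h w (by exact_mod_cast hw)
    rw [Nat.floor_natCast] at h1
    exact h1.trans (le_max_left _ _)
  · subst hw
    have h2 : (Icc 1 2).filter Nat.Prime = {2} := by decide
    rw [h2, Finset.sum_singleton]
    push_cast
    exact le_max_right _ _

/-- the product over `Sw w` -/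
theorem prod_Sw : ∃ C : ℝ, 0 < C ∧ ∀ w : ℕ, 1 ≤ w →
    ∏ s ∈ Sw w, (1 - 1 / (s : ℝ)) ≤ C / Real.log (w + 1) := by
  obtain ⟨C, hC, h⟩ := mert
  refine ⟨2 * Real.exp (C + 1), by positivity, fun w hw => ?_⟩
  have h1 : ∏ s ∈ Sw w, (1 - 1 / (s : ℝ)) ≤ Real.exp (-(∑ s ∈ Sw w, 1 / (s : ℝ))) :=
    prod_le fun s hs => by
      unfold Sw at hs
      rw [Finset.mem_filter, Finset.mem_Icc] at hs
      omega
  have hlog : 0 < Real.log ((w : ℝ) + 1) := Real.log_pos (by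
    have : (1 : ℝ) ≤ w := by exact_mod_cast hw
    linarith)
  rcases hw.lt_or_eq with hw | hw
  swap
  · subst hw
    have h2 : Sw 1 = ∅ := by
      unfold Sw
      rw [Finset.Icc_eq_empty (by norm_num), Finset.filter_empty]
    rw [h2, Finset.prod_empty, le_div_iff₀ hlog, one_mul]
    have h3 := Real.log_le_sub_one_of_pos (show (0 : ℝ) < (1 : ℕ) + 1 by norm_num)
    have h4 : (1 : ℝ) ≤ Real.exp (C + 1) := Real.one_le_exp (by linarith)
    push_cast at h3 ⊢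
    linarith
  · have hw2 : 2 ≤ w := hw
    have h2 := (abs_le.1 (h w hw2)).1
    have h3 : ∑ s ∈ (Icc 1 w).filter Nat.Prime, 1 / (s : ℝ) ≤ ∑ s ∈ Sw w, 1 / (s : ℝ) + 1 := by
      have h4 : (Icc 1 w).filter Nat.Prime ⊆ Sw w ∪ {2, 3} := by
        intro s hs
        rw [Finset.mem_filter, Finset.mem_Icc] at hs
        rw [Finset.mem_union]
        by_cases h5 : 5 ≤ s
        · left
          unfold Sw
          rw [Finset.mem_filter, Finset.mem_Icc]
          exact ⟨⟨h5, hs.1.2⟩, hs.2⟩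
        · right
          have h6 : s < 5 := by omega
          have h7 := hs.2
          have h8 : 1 ≤ s := hs.1.1
          interval_cases s
          · exact absurd h7 (by decide)
          · decide
          · decide
          · exact absurd h7 (by decide)
      refine (Finset.sum_le_sum_of_subset_of_nonneg h4 fun s _ _ => by positivity).trans ?_
      refine (Finset.sum_union_inter (s₁ := Sw w) (s₂ := {2, 3})
        (f := fun s : ℕ => 1 / (s : ℝ))).le.trans' ?_ |>.trans ?_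
      · exact le_add_of_nonneg_right (Finset.sum_nonneg fun s _ => by positivity)
      · have : ∑ s ∈ ({2, 3} : Finset ℕ), 1 / (s : ℝ) ≤ 1 := by
          rw [Finset.sum_pair (by norm_num)]
          norm_num
        linarith
    have hlw : 0 < Real.log w := Real.log_pos (by exact_mod_cast hw)
    have h5 : Real.exp (-(∑ s ∈ Sw w, 1 / (s : ℝ))) ≤ Real.exp (C + 1) / Real.log w := by
      rw [le_div_iff₀ hlw]
      rw [← Real.exp_log hlw, ← Real.exp_add]
      refine Real.exp_le_exp.2 ?_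
      linarith
    have h6 : Real.log ((w : ℝ) + 1) ≤ 2 * Real.log w := by
      have hw' : (2 : ℝ) ≤ w := by exact_mod_cast hw2
      rw [← Real.log_rpow (by linarith)]
      refine Real.log_le_log (by linarith) ?_
      rw [Real.rpow_two]
      nlinarith
    refine h1.trans (h5.trans ?_)
    rw [div_le_div_iff₀ hlw hlog]
    have h7 := mul_le_mul_of_nonneg_left h6 (Real.exp_pos (C + 1)).le
    linarith

end Pool.Agent.Helper13.JC
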