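import Pool.Agent.Helper60.GP.St
import Pool.Agent.Helper13.JC.Mert

/-!
# MP_924f75: many primes outside given residue classes
-/

set_option autoImplicit false

namespace Pool.Agent.Helper13.JC

open Finset ArithmeticFunction Pool.Agent.Helper60.GP
open Pool.Agent.Helper18.TR (fam0 fam1)
open Pool.Agent.Helper15.AB (Th)

theorem totient_prod {T : Finset ℕ} (hT : ∀ s ∈ T, s.Prime) :
    ((Nat.totient (∏ s ∈ T, s) : ℕ) : ℝ) = ∏ s ∈ T, ((s : ℝ) - 1) := by
  classical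
  induction T using Finset.induction_on with
  | empty => simp
  | insert s T hs ih =>
    have hsp := hT s (Finset.mem_insert_self s T)
    have hT' : ∀ t ∈ T, t.Prime := fun t ht => hT t (Finset.mem_insert_of_mem ht)
    rw [Finset.prod_insert hs, Finset.prod_insert hs, Nat.totient_mul, Nat.totient_prime hsp]
    · rw [Nat.cast_mul, ih hT', Nat.cast_sub hsp.one_lt.le, Nat.cast_one]
    · refine Nat.Coprime.prod_right fun t ht => ?_
      refine (Nat.coprime_primes hsp (hT' t ht)).2 ?_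
      rintro rfl
      exact hs ht

/-- residue classes modulo all `d` -/
theorem exists_b (Q : Finset ℕ) (c : ℕ → ℤ) (hc : ∀ s ∈ Q, ¬ (s : ℤ) ∣ c s) :
    ∃ b : ℕ → ℤ, (∀ d : ℕ, 1 ≤ d → IsCoprime (b d) (d : ℤ)) ∧
      ∀ d : ℕ, 1 ≤ d → d.primeFactors ⊆ Q → ∀ s ∈ d.primeFactors, (s : ℤ) ∣ b d - c s := by
  classical
  have h1 : ∀ d : ℕ, ∃ β : ℤ, (1 ≤ d → IsCoprime β (d : ℤ)) ∧
      (1 ≤ d → d.primeFactors ⊆ Q → ∀ s ∈ d.primeFactors, (s : ℤ) ∣ β - c s) := by
    intro d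
    by_cases hd : d.primeFactors ⊆ Q
    · obtain ⟨h0, hh0⟩ := crt 1 0 c d.primeFactors fun s hs =>
        ⟨Nat.prime_of_mem_primeFactors hs, fun h =>
          (Nat.prime_of_mem_primeFactors hs).one_lt.ne' (Nat.dvd_one.1 h)⟩
      have hh1 : ∀ s ∈ d.primeFactors, (s : ℤ) ∣ h0 - c s := by
        intro s hs
        have := hh0 s hs
        simpa using this
      refine ⟨h0, fun hd1 => ?_, fun _ _ => hh1⟩
      rw [Int.isCoprime_iff_gcd_eq_one]
      by_contra hne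
      obtain ⟨p, hp, hpd⟩ := Nat.exists_prime_and_dvd hne
      have h2 : (p : ℤ) ∣ h0 := (Int.natCast_dvd_natCast.2 hpd).trans (Int.gcd_dvd_left ..)
      have h3 : (p : ℤ) ∣ (d : ℤ) := (Int.natCast_dvd_natCast.2 hpd).trans (Int.gcd_dvd_right ..)
      have h4 : p ∣ d := Int.natCast_dvd_natCast.1 h3
      have h5 : p ∈ d.primeFactors := Nat.mem_primeFactors.2 ⟨hp, h4, by omega⟩
      have h6 := hh1 p h5
      refine hc p (hd h5) ?_
      have h7 := dvd_sub h2 h6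
      simpa using h7
    · exact ⟨1, fun _ => isCoprime_one_left, fun _ h => absurd h hd⟩
  choose b hb using h1
  exact ⟨b, fun d => (hb d).1, fun d => (hb d).2⟩

open Classical in
/-- the lower bound sieve, weighted form -/
theorem sieve_lower (hBVc : StBVc) (hPNT : StPNT) {ω : ℝ → ℝ} (hω : IsB ω) (hJ : 0 < JJ ω) :
    ∃ (κ : ℝ) (X₀ : ℝ), 0 < κ ∧ κ ≤ 1 / 4 ∧ 2 ≤ X₀ ∧ ∀ X : ℝ, X₀ ≤ X → ∀ (Q : Finset ℕ) (c : ℕ → ℤ),
      (∀ s ∈ Q, s.Prime ∧ 3 ≤ s ∧ (s : ℝ) ≤ X ^ κ) → (∀ s ∈ Q, ¬ (s : ℤ) ∣ c s) →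
      JJ ω / 8 * X * ∏ s ∈ Q, (1 - 1 / ((s : ℝ) - 1)) ≤
        ∑ n ∈ (II X).filter (fun n : ℕ => ∀ s ∈ Q, ¬ (s : ℤ) ∣ (n : ℤ) - c s),
          Λ n * ω (Real.log (n / X)) := by
  obtain ⟨b, hb, hFL⟩ := Pool.Agent.Helper18.TR.flMain 2 (1 / 2) (by norm_num) (by norm_num)
  obtain ⟨B, hB⟩ := Pool.Agent.Helper18.TR.pf_Level b
  obtain ⟨C, hC, hM⟩ := mert
  obtain ⟨X₁, hX₁⟩ := hBVc ω hω 2 (1 / 4) (by norm_num)
  obtain ⟨X₂, hX₂⟩ := hPNT ω hω (JJ ω / 2) (by positivity)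
  set K : ℝ := JJ ω / 8 * Real.exp (-C - 5) with hK
  have hK0 : 0 < K := by positivity
  obtain ⟨X₃, hX₃⟩ : ∃ X₃ : ℝ, ∀ X : ℝ, X₃ ≤ X → 1 / K ≤ Real.log X := by
    have := Real.tendsto_log_atTop.eventually_ge_atTop (1 / K)
    exact Filter.eventually_atTop.1 this
  refine ⟨1 / (4 * (B + 1)), max (max X₁ X₂) (max X₃ 3), by positivity, ?_, ?_, ?_⟩
  · rw [div_le_div_iff₀ (by positivity) (by norm_num)]
    have : (0 : ℝ) ≤ B := Nat.cast_nonneg B
    linarith
  · exact (show (2 : ℝ) ≤ 3 by norm_num).trans ((le_max_right _ _).trans (le_max_right _ _))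
  intro X hX Q c hQ hc
  have hX1 : X₁ ≤ X := ((le_max_left _ _).trans (le_max_left _ _)).trans hX
  have hX2 : X₂ ≤ X := ((le_max_right _ _).trans (le_max_left _ _)).trans hX
  have hX3 : X₃ ≤ X := ((le_max_left _ _).trans (le_max_right _ _)).trans hX
  have hX4 : 3 ≤ X := ((le_max_right _ _).trans (le_max_right _ _)).trans hX
  set κ : ℝ := 1 / (4 * (B + 1)) with hκ
  have hκ0 : 0 < κ := by positivity
  set w : ℕ := ⌊X ^ κ⌋₊ with hw
  have hXκ : 1 ≤ X ^ κ := Real.one_le_rpow (by linarith) hκ0.le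
  have hw1 : 1 ≤ w := Nat.le_floor (by exact_mod_cast hXκ)
  have hwX : (w : ℝ) ≤ X ^ κ := Nat.floor_le (by linarith)
  have hQw : ∀ s ∈ Q, s.Prime ∧ s ≤ w := fun s hs => ⟨(hQ s hs).1, Nat.le_floor (hQ s hs).2.2⟩
  obtain ⟨β, hβ1, hβ2⟩ := exists_b Q c hc
  set F : Finset (Finset ℕ) := fam0 w b Q ∪ fam1 w b Q with hF
  have hFQ : ∀ T ∈ F, T ⊆ Q := by
    intro T hT
    rw [hF, Finset.mem_union] at hT
    rcases hT with hT | hT
    · unfold fam0 at hT
      simp only [Finset.mem_filter] at hT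
      exact Finset.mem_powerset.1 hT.1
    · unfold fam1 at hT
      simp only [Finset.mem_filter] at hT
      exact Finset.mem_powerset.1 hT.1
  have hFB : ∀ T ∈ F, ∏ p ∈ T, p ≤ w ^ B := fun T hT => hB w hw1 Q hQw T hT
  set W : ℕ → ℝ := fun n => Λ n * ω (Real.log (n / X)) with hW
  have hW0 : ∀ n, 0 ≤ W n := fun n => mul_nonneg vonMangoldt_nonneg (hω.nonneg _)
  -- the lower bound for the indicator
  have h1 : ∀ n : ℕ, ∑ T ∈ F, (-1 : ℝ) ^ T.card *
      (if ∀ s ∈ T, (s : ℤ) ∣ (n : ℤ) - c s then (1 : ℝ) else 0) ≤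
      if ∀ s ∈ Q, ¬ (s : ℤ) ∣ (n : ℤ) - c s then (1 : ℝ) else 0 := by
    intro n
    have h2 := (Pool.Agent.Helper18.TR.bonf w b Q
      (fun s => if (s : ℤ) ∣ (n : ℤ) - c s then (1 : ℝ) else 0) hb (fun s _ => by
        split_ifs <;> norm_num)).1
    have h3 : ∏ s ∈ Q, (1 - if (s : ℤ) ∣ (n : ℤ) - c s then (1 : ℝ) else 0) =
        if ∀ s ∈ Q, ¬ (s : ℤ) ∣ (n : ℤ) - c s then (1 : ℝ) else 0 := by
      have h4 : ∏ s ∈ Q, (1 - if (s : ℤ) ∣ (n : ℤ) - c s then (1 : ℝ) else 0) =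
          ∏ s ∈ Q, if ¬ (s : ℤ) ∣ (n : ℤ) - c s then (1 : ℝ) else 0 := by
        refine Finset.prod_congr rfl fun s _ => ?_
        split_ifs <;> norm_num
      rw [h4, Finset.prod_ite_zero, Finset.prod_const_one]
    rw [h3] at h2
    refine le_trans (le_of_eq (Finset.sum_congr rfl fun T _ => ?_)) h2
    rw [Finset.prod_ite_zero, Finset.prod_const_one]
  -- the weighted sums
  set A : Finset ℕ → ℝ := fun T =>
    ∑ n ∈ (II X).filter (fun n : ℕ => ∀ s ∈ T, (s : ℤ) ∣ (n : ℤ) - c s), W n with hA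
  have h2 : ∑ T ∈ F, (-1 : ℝ) ^ T.card * A T ≤
      ∑ n ∈ (II X).filter (fun n : ℕ => ∀ s ∈ Q, ¬ (s : ℤ) ∣ (n : ℤ) - c s), W n := by
    have h3 : ∑ T ∈ F, (-1 : ℝ) ^ T.card * A T = ∑ n ∈ II X, W n * ∑ T ∈ F, (-1 : ℝ) ^ T.card *
        (if ∀ s ∈ T, (s : ℤ) ∣ (n : ℤ) - c s then (1 : ℝ) else 0) := by
      have e1 : ∀ n ∈ II X, W n * ∑ T ∈ F, (-1 : ℝ) ^ T.card *
          (if ∀ s ∈ T, (s : ℤ) ∣ (n : ℤ) - c s then (1 : ℝ) else 0) = ∑ T ∈ F, W n *
          ((-1 : ℝ) ^ T.card * (if ∀ s ∈ T, (s : ℤ) ∣ (n : ℤ) - c s then (1 : ℝ) else 0)) :=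
        fun n _ => Finset.mul_sum _ _ _
      rw [Finset.sum_congr rfl e1, Finset.sum_comm]
      refine Finset.sum_congr rfl fun T _ => ?_
      rw [hA]
      dsimp only
      rw [Finset.sum_filter, Finset.mul_sum]
      refine Finset.sum_congr rfl fun n _ => ?_
      split_ifs <;> ring
    rw [h3, Finset.sum_filter]
    refine Finset.sum_le_sum fun n _ => ?_
    refine (mul_le_mul_of_nonneg_left (h1 n) (hW0 n)).trans (le_of_eq ?_)
    split_ifs <;> ring
  -- errors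
  set dd : Finset ℕ → ℕ := fun T => ∏ s ∈ T, s with hdd
  have hpf : ∀ T ∈ F, (dd T).primeFactors = T := fun T hT =>
    Nat.primeFactors_prod fun s hs => (hQw s (hFQ T hT hs)).1
  have hd1 : ∀ T ∈ F, 1 ≤ dd T := fun T hT => prod_ge_one fun s hs => (hQw s (hFQ T hT hs)).1
  have h4 : ∀ T ∈ F, |A T - Th ω X / (Nat.totient (dd T) : ℝ)| = Err ω X (dd T) (β (dd T)) := by
    intro T hT
    unfold Err
    have h5 : (II X).filter (fun n : ℕ => ∀ s ∈ T, (s : ℤ) ∣ (n : ℤ) - c s) =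
        (II X).filter (fun n : ℕ => ((dd T : ℕ) : ℤ) ∣ (n : ℤ) - β (dd T)) := by
      refine Finset.filter_congr fun n _ => ?_
      rw [← dvd_all fun s hs => (hQw s (hFQ T hT hs)).1]
      refine forall₂_congr fun s hs => ?_
      have h6 : (s : ℤ) ∣ β (dd T) - c s := by
        refine hβ2 (dd T) (hd1 T hT) ?_ s ?_
        · rw [hpf T hT]
          exact hFQ T hT
        · rw [hpf T hT]
          exact hs
      have h7 : (n : ℤ) - c s = ((n : ℤ) - β (dd T)) + (β (dd T) - c s) := by ring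
      rw [h7, dvd_add_left h6]
    rw [← h5]
  have hdX : ∀ T ∈ F, dd T ∈ Icc 1 ⌊X ^ (1 / 4 : ℝ)⌋₊ := by
    intro T hT
    rw [Finset.mem_Icc]
    refine ⟨hd1 T hT, Nat.le_floor ?_⟩
    have h5 : ((dd T : ℕ) : ℝ) ≤ (w : ℝ) ^ B := by exact_mod_cast hFB T hT
    refine h5.trans ((pow_le_pow_left₀ (Nat.cast_nonneg w) hwX B).trans ?_)
    rw [← Real.rpow_natCast, ← Real.rpow_mul (by linarith)]
    refine Real.rpow_le_rpow_of_exponent_le (by linarith) ?_
    rw [hκ, div_mul_eq_mul_div, one_mul, div_le_div_iff₀ (by positivity) (by norm_num)]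
    have : (0 : ℝ) ≤ B := Nat.cast_nonneg B
    linarith
  have h5 : ∑ T ∈ F, |A T - Th ω X / (Nat.totient (dd T) : ℝ)| ≤ X / Real.log X ^ 2 := by
    rw [Finset.sum_congr rfl h4]
    have h6 : ∑ T ∈ F, Err ω X (dd T) (β (dd T)) =
        ∑ d ∈ F.image dd, Err ω X d (β d) := by
      rw [Finset.sum_image]
      intro T hT T' hT' h
      have := congrArg Nat.primeFactors h
      rw [hpf T hT, hpf T' hT'] at this
      exact this
    rw [h6]
    refine le_trans (Finset.sum_le_sum_of_subset_of_nonneg ?_ fun d _ _ => ?_)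
      (hX₁ X hX1 β fun q hq => hβ1 q hq)
    · intro d hd
      obtain ⟨T, hT, rfl⟩ := Finset.mem_image.1 hd
      exact hdX T hT
    · unfold Err
      exact abs_nonneg _
  -- main term
  have hmain := (hFL w Q hQw (fun s => 1 / ((s : ℝ) - 1)) (fun s hs => by
    have h3 : (3 : ℝ) ≤ s := by exact_mod_cast (hQ s hs).2.1
    refine ⟨by
      have : (0 : ℝ) < (s : ℝ) - 1 := by linarith
      positivity, ?_, ?_⟩
    · rw [div_le_div_iff₀ (by linarith) (by linarith)]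
      linarith
    · rw [div_le_div_iff₀ (by linarith) (by norm_num)]
      linarith)).2
  set V := ∏ s ∈ Q, (1 - 1 / ((s : ℝ) - 1)) with hV
  have hVlow : Real.exp (-(∑ s ∈ Q, 1 / (s : ℝ)) - 5) ≤ V := prod_ge fun s hs => (hQ s hs).2.1
  have hV0 : 0 < V := (Real.exp_pos _).trans_le hVlow
  have hTh : JJ ω / 2 * X ≤ Th ω X := by
    have := (abs_le.1 (hX₂ X hX2)).1
    linarith
  have hTh0 : 0 ≤ Th ω X := by
    have : 0 ≤ JJ ω / 2 * X := by positivity
    linarith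
  have h6 : ∑ T ∈ F, (-1 : ℝ) ^ T.card * (Th ω X / (Nat.totient (dd T) : ℝ)) =
      Th ω X * ∑ T ∈ F, (-1 : ℝ) ^ T.card * ∏ p ∈ T, 1 / ((p : ℝ) - 1) := by
    rw [Finset.mul_sum]
    refine Finset.sum_congr rfl fun T hT => ?_
    rw [hdd]
    dsimp only
    rw [totient_prod fun s hs => (hQw s (hFQ T hT hs)).1, Finset.prod_div_distrib,
      Finset.prod_const_one]
    ring
  have h7 : ∑ T ∈ F, (-1 : ℝ) ^ T.card * (Th ω X / (Nat.totient (dd T) : ℝ)) -
      ∑ T ∈ F, |A T - Th ω X / (Nat.totient (dd T) : ℝ)| ≤ ∑ T ∈ F, (-1 : ℝ) ^ T.card * A T := by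
    rw [← Finset.sum_sub_distrib]
    refine Finset.sum_le_sum fun T _ => ?_
    have h8 : |(-1 : ℝ) ^ T.card * (A T - Th ω X / (Nat.totient (dd T) : ℝ))| =
        |A T - Th ω X / (Nat.totient (dd T) : ℝ)| := by
      rw [abs_mul, abs_pow, abs_neg, abs_one, one_pow, one_mul]
    have h9 := neg_abs_le ((-1 : ℝ) ^ T.card * (A T - Th ω X / (Nat.totient (dd T) : ℝ)))
    rw [h8] at h9
    linarith
  have h8 : JJ ω / 2 * X * (1 / 2 * V) ≤
      Th ω X * ∑ T ∈ F, (-1 : ℝ) ^ T.card * ∏ p ∈ T, 1 / ((p : ℝ) - 1) := by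
    have h9 : 1 / 2 * V ≤ ∑ T ∈ F, (-1 : ℝ) ^ T.card * ∏ p ∈ T, 1 / ((p : ℝ) - 1) := by
      refine le_trans (le_of_eq ?_) hmain
      ring
    exact mul_le_mul hTh h9 (by positivity) hTh0
  -- the error is small
  have h9 : X / Real.log X ^ 2 ≤ JJ ω / 8 * X * V := by
    have hlX : 0 < Real.log X := Real.log_pos (by linarith)
    have h10 : Real.exp (-C - 5) / Real.log X ≤ V := by
      refine le_trans ?_ hVlow
      rw [div_le_iff₀ hlX]
      by_cases hw2 : 2 ≤ w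
      · have h11 := (abs_le.1 (hM w hw2)).2
        have h12 : ∑ s ∈ Q, 1 / (s : ℝ) ≤ ∑ s ∈ (Icc 1 w).filter Nat.Prime, 1 / (s : ℝ) := by
          refine Finset.sum_le_sum_of_subset_of_nonneg (fun s hs => ?_) fun s _ _ => by positivity
          rw [Finset.mem_filter, Finset.mem_Icc]
          exact ⟨⟨(hQw s hs).1.one_lt.le, (hQw s hs).2⟩, (hQw s hs).1⟩
        have hlw : 0 < Real.log w := Real.log_pos (by exact_mod_cast hw2)
        have h13 : Real.log w ≤ Real.log X := by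
          refine Real.log_le_log (by exact_mod_cast (by omega : 0 < w)) (hwX.trans ?_)
          nth_rewrite 2 [← Real.rpow_one X]
          refine Real.rpow_le_rpow_of_exponent_le (by linarith) ?_
          rw [hκ, div_le_one (by positivity)]
          have : (0 : ℝ) ≤ B := Nat.cast_nonneg B
          linarith
        have h14 : Real.exp (-C - 5) ≤ Real.exp (-(∑ s ∈ Q, 1 / (s : ℝ)) - 5) * Real.log w := by
          rw [← Real.exp_log hlw, ← Real.exp_add]
          refine Real.exp_le_exp.2 ?_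
          linarith
        exact h14.trans (mul_le_mul_of_nonneg_left h13 (Real.exp_pos _).le)
      · have h11 : Q = ∅ := by
          rw [Finset.eq_empty_iff_forall_notMem]
          intro s hs
          have := (hQw s hs).2
          have := (hQ s hs).2.1
          omega
        rw [h11, Finset.sum_empty, neg_zero, zero_sub]
        have h12 : Real.exp (-C - 5) ≤ Real.exp (-5) := Real.exp_le_exp.2 (by linarith)
        have h13 : 1 ≤ Real.log X := by
          rw [Real.le_log_iff_exp_le (by linarith)]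
          exact Real.exp_one_lt_three.le.trans hX4
        have h14 := mul_le_mul_of_nonneg_left h13 (Real.exp_pos (-5 : ℝ)).le
        linarith
    have h11 : 1 / K ≤ Real.log X := hX₃ X hX3
    rw [div_le_iff₀ hK0] at h11
    have h12 : X / Real.log X ^ 2 ≤ X * (K / Real.log X) := by
      rw [div_le_iff₀ (by positivity)]
      have e : X * (K / Real.log X) * Real.log X ^ 2 = X * (Real.log X * K) := by
        field_simp
      rw [e]
      nlinarith
    refine h12.trans ?_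
    have h13 : K / Real.log X ≤ JJ ω / 8 * V := by
      rw [hK, mul_div_assoc]
      exact mul_le_mul_of_nonneg_left h10 (by positivity)
    have h14 := mul_le_mul_of_nonneg_left h13 (show 0 ≤ X by linarith)
    linarith
  have h10 : JJ ω / 2 * X * (1 / 2 * V) = 2 * (JJ ω / 8 * X * V) := by ring
  linarith

end Pool.Agent.Helper13.JC
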