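import Pool.Agent.Helper13.JC.LB

/-!
# MP_924f75: many primes outside given residue classes, counting form
-/

set_option autoImplicit false

namespace Pool.Agent.Helper13.JC

open Finset ArithmeticFunction Pool.Agent.Helper60.GP
open Pool.Agent.Helper15.AB (Th)

/-- crude lower bound for the sifting product -/
theorem prod_low : ∃ c : ℝ, 0 < c ∧ ∀ (X : ℝ), 3 ≤ X → ∀ Q : Finset ℕ,
    (∀ s ∈ Q, s.Prime ∧ 3 ≤ s ∧ (s : ℝ) ≤ X) →
    c / Real.log X ≤ ∏ s ∈ Q, (1 - 1 / ((s : ℝ) - 1)) := by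
  obtain ⟨C, hC, hM⟩ := mert
  refine ⟨Real.exp (-C - 5), Real.exp_pos _, fun X hX Q hQ => ?_⟩
  refine le_trans ?_ (prod_ge fun s hs => (hQ s hs).2.1)
  have hlX : 0 < Real.log X := Real.log_pos (by linarith)
  set w : ℕ := ⌊X⌋₊ with hw
  have hw3 : 3 ≤ w := Nat.le_floor (by exact_mod_cast hX)
  have hwX : (w : ℝ) ≤ X := Nat.floor_le (by linarith)
  have h1 := (abs_le.1 (hM w (by omega))).2
  have h2 : ∑ s ∈ Q, 1 / (s : ℝ) ≤ ∑ s ∈ (Icc 1 w).filter Nat.Prime, 1 / (s : ℝ) := by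
    refine Finset.sum_le_sum_of_subset_of_nonneg (fun s hs => ?_) fun s _ _ => by positivity
    rw [Finset.mem_filter, Finset.mem_Icc]
    exact ⟨⟨(hQ s hs).1.one_lt.le, Nat.le_floor (hQ s hs).2.2⟩, (hQ s hs).1⟩
  have h3 : Real.log w ≤ Real.log X :=
    Real.log_le_log (by exact_mod_cast (by omega : 0 < w)) hwX
  have hlw : 0 < Real.log w := Real.log_pos (by exact_mod_cast (by omega : 1 < w))
  rw [div_le_iff₀ hlX]
  have h4 : Real.exp (-C - 5) ≤ Real.exp (-(∑ s ∈ Q, 1 / (s : ℝ)) - 5) * Real.log w := by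
    rw [← Real.exp_log hlw, ← Real.exp_add]
    refine Real.exp_le_exp.2 ?_
    linarith
  exact h4.trans (mul_le_mul_of_nonneg_left h3 (Real.exp_pos _).le)

open Classical in
/-- the lower bound sieve, counting form -/
theorem lower (hBVc : StBVc) (hPNT : StPNT) (hBump : StBump) :
    ∃ c₀ κ X₀ : ℝ, 0 < c₀ ∧ 0 < κ ∧ κ ≤ 1 / 4 ∧ 2 ≤ X₀ ∧ ∀ X : ℕ, X₀ ≤ X →
      ∀ (Q : Finset ℕ) (c : ℕ → ℤ), (∀ s ∈ Q, s.Prime ∧ 3 ≤ s ∧ (s : ℝ) ≤ (X : ℝ) ^ κ) →
      (∀ s ∈ Q, ¬ (s : ℤ) ∣ c s) →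
      c₀ * (X / Real.log X) * ∏ s ∈ Q, (1 - 1 / ((s : ℝ) - 1)) ≤
        (((Ioc X (2 * X)).filter
          (fun q : ℕ => q.Prime ∧ ∀ s ∈ Q, ¬ (s : ℤ) ∣ (q : ℤ) - c s)).card : ℝ) := by
  obtain ⟨ω, hω, hJ, hsupp⟩ := hBump (Real.log 2) (Real.log_pos (by norm_num))
  obtain ⟨κ, X₁, hκ, hκ4, hX1, hS⟩ := sieve_lower hBVc hPNT hω hJ
  obtain ⟨c₁, hc1, hV⟩ := prod_low
  obtain ⟨C, hC⟩ := Chebyshev.psi_sub_theta_le_mul_sqrt
  set J := JJ ω with hJd
  -- size condition
  have hC0 : 0 < |C| + 1 := by positivity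
  set ε : ℝ := J / 16 * c₁ / (|C| + 1) with hε
  have hε0 : 0 < ε := by positivity
  obtain ⟨X₂, hX2⟩ : ∃ X₂ : ℝ, ∀ X : ℝ, X₂ ≤ X → Real.log X ≤ ε * √X := by
    have h1 := (isLittleO_log_rpow_atTop (show (0 : ℝ) < 1 / 2 by norm_num)).bound hε0
    obtain ⟨X₂, hX2⟩ := Filter.eventually_atTop.1 h1
    refine ⟨max X₂ 1, fun X hX => ?_⟩
    have h2 := hX2 X ((le_max_left _ _).trans hX)
    have h3 : (1 : ℝ) ≤ X := (le_max_right _ _).trans hX
    rw [Real.norm_eq_abs, Real.norm_eq_abs, abs_of_nonneg (Real.log_nonneg h3),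
      abs_of_nonneg (by positivity), ← Real.sqrt_eq_rpow] at h2
    exact h2
  refine ⟨J / 16, κ, max (max X₁ X₂) 3, by positivity, hκ, hκ4,
    (show (2 : ℝ) ≤ 3 by norm_num).trans (le_max_right _ _), ?_⟩
  intro X hX Q c hQ hc
  have hX1' : X₁ ≤ X := ((le_max_left _ _).trans (le_max_left _ _)).trans hX
  have hX2' : X₂ ≤ X := ((le_max_right _ _).trans (le_max_left _ _)).trans hX
  have hX3 : (3 : ℝ) ≤ X := (le_max_right _ _).trans hX
  have hXpos : (0 : ℝ) < X := by linarith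
  have hlX : 0 < Real.log (X : ℝ) := Real.log_pos (by linarith)
  set P := (Ioc X (2 * X)).filter
    (fun q : ℕ => q.Prime ∧ ∀ s ∈ Q, ¬ (s : ℤ) ∣ (q : ℤ) - c s) with hP
  set V := ∏ s ∈ Q, (1 - 1 / ((s : ℝ) - 1)) with hVd
  have hVlow : c₁ / Real.log X ≤ V := by
    refine hV X hX3 Q fun s hs => ⟨(hQ s hs).1, (hQ s hs).2.1, (hQ s hs).2.2.trans ?_⟩
    nth_rewrite 2 [← Real.rpow_one (X : ℝ)]
    exact Real.rpow_le_rpow_of_exponent_le (by linarith) (by linarith)
  have h1 := hS X hX1' Q c hQ hc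
  -- upper bound for the weighted sum
  set NP := (Ioc 0 (2 * X)).filter (fun n : ℕ => ¬ n.Prime) with hNP
  have h2 : ∑ n ∈ (II X).filter (fun n : ℕ => ∀ s ∈ Q, ¬ (s : ℤ) ∣ (n : ℤ) - c s),
      Λ n * ω (Real.log (n / X)) ≤
      ∑ n ∈ P, Real.log (2 * X) * (1 / 2) + ∑ n ∈ NP, Λ n * (1 / 2) := by
    have h3 : ∀ n ∈ (II X).filter (fun n : ℕ => ∀ s ∈ Q, ¬ (s : ℤ) ∣ (n : ℤ) - c s),
        Λ n * ω (Real.log (n / X)) ≤ (if n ∈ P then Real.log (2 * X) * (1 / 2) else 0) +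
          (if n ∈ NP then Λ n * (1 / 2) else 0) := by
      intro n hn
      rw [Finset.mem_filter] at hn
      have hlog2 : 0 ≤ Real.log (2 * (X : ℝ)) := Real.log_nonneg (by linarith)
      have hr1 : 0 ≤ (if n ∈ P then Real.log (2 * (X : ℝ)) * (1 / 2) else 0) := by
        split_ifs <;> positivity
      have hr2 : 0 ≤ (if n ∈ NP then Λ n * (1 / 2) else 0) := by
        split_ifs
        · exact mul_nonneg vonMangoldt_nonneg (by norm_num)
        · exact le_rfl
      by_cases h0 : ω (Real.log (n / X)) = 0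
      · rw [h0, mul_zero]
        linarith
      · obtain ⟨h4, h5⟩ := hsupp _ h0
        have hn0 : (0 : ℝ) < n := by
          rcases Nat.eq_zero_or_pos n with h | h
          · rw [h] at h4
            simp at h4
          · exact_mod_cast h
        have h6 : (X : ℝ) < n := by
          have h7 := (Real.log_pos_iff (by positivity)).1 h4
          rwa [lt_div_iff₀ hXpos, one_mul] at h7
        have h7 : (n : ℝ) < 2 * X := by
          have h8 := (Real.log_lt_log_iff (by positivity) (by norm_num)).1 h5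
          rwa [div_lt_iff₀ hXpos] at h8
        have h6' : X < n := by exact_mod_cast h6
        have h7' : n < 2 * X := by exact_mod_cast h7
        by_cases hp : n.Prime
        · have h8 : n ∈ P := by
            rw [hP, Finset.mem_filter, Finset.mem_Ioc]
            exact ⟨⟨h6', h7'.le⟩, hp, hn.2⟩
          rw [if_pos h8]
          have h9 : Λ n * ω (Real.log (n / X)) ≤ Real.log (2 * X) * (1 / 2) := by
            refine mul_le_mul ?_ (hω.le_half _) (hω.nonneg _) hlog2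
            exact vonMangoldt_le_log.trans (Real.log_le_log hn0 h7.le)
          linarith
        · have h8 : n ∈ NP := by
            rw [hNP, Finset.mem_filter, Finset.mem_Ioc]
            exact ⟨⟨by omega, h7'.le⟩, hp⟩
          rw [if_pos h8]
          have h9 : Λ n * ω (Real.log (n / X)) ≤ Λ n * (1 / 2) :=
            mul_le_mul_of_nonneg_left (hω.le_half _) vonMangoldt_nonneg
          linarith
    refine (Finset.sum_le_sum h3).trans ?_
    rw [Finset.sum_add_distrib, ← Finset.sum_filter, ← Finset.sum_filter]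
    refine add_le_add ?_ ?_
    · refine Finset.sum_le_sum_of_subset_of_nonneg (fun n hn => (Finset.mem_filter.1 hn).2) ?_
      intro n _ _
      have : 0 ≤ Real.log (2 * (X : ℝ)) := Real.log_nonneg (by linarith)
      positivity
    · refine Finset.sum_le_sum_of_subset_of_nonneg (fun n hn => (Finset.mem_filter.1 hn).2) ?_
      intro n _ _
      exact mul_nonneg vonMangoldt_nonneg (by norm_num)
  have h3 : ∑ n ∈ NP, Λ n * (1 / 2) ≤ 1 / 2 * (C * √(2 * X)) := by
    rw [← Finset.sum_mul, mul_comm]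
    refine mul_le_mul_of_nonneg_left ?_ (by norm_num)
    refine le_trans (le_of_eq ?_) (hC (2 * X))
    rw [Chebyshev.psi_sub_theta_eq_sum_not_prime]
    have h4 : ⌊(2 * X : ℝ)⌋₊ = 2 * X := by
      have : ((2 * X : ℕ) : ℝ) = 2 * (X : ℝ) := by push_cast; ring
      rw [← this, Nat.floor_natCast]
    rw [h4]
  have h4 : C * √(2 * (X : ℝ)) ≤ J / 8 * X * V := by
    have h5 : √(2 * (X : ℝ)) ≤ 2 * √(X : ℝ) := by
      rw [Real.sqrt_mul (by norm_num)]
      refine mul_le_mul_of_nonneg_right ?_ (Real.sqrt_nonneg _)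
      rw [Real.sqrt_le_left (by norm_num)]
      norm_num
    have h6 : C * √(2 * (X : ℝ)) ≤ (|C| + 1) * (2 * √(X : ℝ)) :=
      mul_le_mul ((le_abs_self C).trans (by linarith)) h5 (Real.sqrt_nonneg _) hC0.le
    have h7 := hX2 X hX2'
    have h8 : √(X : ℝ) * √(X : ℝ) = X := Real.mul_self_sqrt hXpos.le
    have h9 : (|C| + 1) * (2 * √(X : ℝ)) ≤ J / 8 * X * (c₁ / Real.log X) := by
      rw [← mul_div_assoc, le_div_iff₀ hlX]
      have h10 : (|C| + 1) * (2 * √(X : ℝ)) * Real.log X ≤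
          (|C| + 1) * (2 * √(X : ℝ)) * (ε * √(X : ℝ)) :=
        mul_le_mul_of_nonneg_left h7 (by positivity)
      have h11 : (|C| + 1) * (2 * √(X : ℝ)) * (ε * √(X : ℝ)) = J / 8 * X * c₁ := by
        have e : (|C| + 1) * (2 * √(X : ℝ)) * (ε * √(X : ℝ)) =
            2 * ((|C| + 1) * ε) * (√(X : ℝ) * √(X : ℝ)) := by ring
        rw [e, h8, hε]
        field_simp
        ring
      linarith
    have h10 := mul_le_mul_of_nonneg_left hVlow (show 0 ≤ J / 8 * (X : ℝ) by positivity)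
    linarith
  -- conclusion
  rw [Finset.sum_const, nsmul_eq_mul] at h2
  have hV0 : 0 ≤ V := (by positivity : 0 ≤ c₁ / Real.log (X : ℝ)).trans hVlow
  have h5 : J / 16 * X * V ≤ P.card * (Real.log (2 * X) * (1 / 2)) := by linarith
  have h6 : Real.log (2 * (X : ℝ)) ≤ 2 * Real.log X := by
    rw [Real.log_mul (by norm_num) hXpos.ne']
    have := Real.log_le_log (by norm_num) (show (2 : ℝ) ≤ X by linarith)
    linarith
  have h7 : (P.card : ℝ) * (Real.log (2 * X) * (1 / 2)) ≤ P.card * Real.log X :=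
    mul_le_mul_of_nonneg_left (by linarith) (Nat.cast_nonneg _)
  have h8 : J / 16 * (X / Real.log X) * V = J / 16 * X * V / Real.log X := by ring
  rw [h8, div_le_iff₀ hlX]
  linarith

end Pool.Agent.Helper13.JC
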